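import Pool.Agent.Lib.MP_a9d022_lc.Words
import Pool.Agent.Lib.MP_17a834_lc.Msr.Ops

/-! # The search for independent conjugates, with an oracle for the subset sum problem -/

namespace Pool.Agent.SspConj

open Pool.Agent.MSR (lcase)

variable {G : Type} [Group G] {r : ℕ}

/-- the conjugates of the entries by generators and their inverses -/
def cands (Y : List Wd) (B : List Wd) : List Wd :=
  B.flatMap fun b => Y.flatMap fun y => [wcj y b, wcj (winv y) b]

/-- one step of the search -/
def grow (S : List Wd × Wd → Bool) (p : ℕ) (Y : List Wd) (B : List Wd) : List Wd :=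
  lcase ((cands Y B).filter fun v => !inSp S p B v) B fun v _ => v :: B

/-- the conjugates of the entries by the powers `q ^ s`, `|s| ≤ n` -/
def shifts (n : ℕ) (q : Wd) (C : List Wd) : List Wd :=
  (List.range (2 * n + 1)).flatMap fun i => C.map fun w => wcj (wz n i q) w

/-- the words that must not be in the span of the shifts -/
def tests (p n : ℕ) (q v : Wd) : List Wd :=
  (((List.range p).flatMap fun c1 => (List.range p).map fun c2 => (c1, c2)).filter
    fun c => !(c.1 == 0 && c.2 == 0)).flatMap fun c =>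
      (List.range (2 * n + 1)).map fun i => wpow c.1 v ++ wpow c.2 (wcj q v) ++ wz n i q

/-- local independence by the oracle -/
def locb (S : List Wd × Wd → Bool) (p n : ℕ) (q : Wd) (C : List Wd) (v : Wd) : Bool :=
  !((tests p n q v).any fun t => inSp S p (shifts n q C) t)

/-- greedy choice of at most `M` locally independent entries -/
def pick (S : List Wd × Wd → Bool) (p n : ℕ) (q : Wd) (G0 : List Wd) (M : ℕ) (B : List Wd) :
    List Wd :=
  B.foldl (fun C v => if Pool.Agent.MSR.ltb C.length M && locb S p n q (C ++ G0) v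
    then v :: C else C) []

variable {X : Fin r → G} {S : List Wd × Wd → Bool} {p : ℕ}

section grow
variable {H : Subgroup G} {a : Wd} {Y : List Wd}

theorem mem_cands {Y B : List Wd} {v : Wd} : v ∈ cands Y B ↔
    ∃ b ∈ B, ∃ y ∈ Y, v = wcj y b ∨ v = wcj (winv y) b := by
  unfold cands
  simp only [List.mem_flatMap, List.mem_cons, List.not_mem_nil, or_false]

/-- the search produces longer and longer trees -/
theorem grow_tree (hS : Orc X S) (hp : 2 ≤ p)
    (hc : ∀ x ∈ orb H (ev X a), ∀ y ∈ orb H (ev X a), x * y = y * x)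
    (he : ∀ x ∈ orb H (ev X a), x ^ p = 1)
    (hY : Subgroup.closure {y | y ∈ Y.map (ev X)} = H)
    (hinf : {x | ∃ h ∈ H, x = cj h (ev X a)}.Infinite) {B : List Wd}
    (h : Tree (Y.map (ev X)) (ev X a) (B.map (ev X))) :
    Tree (Y.map (ev X)) (ev X a) ((grow S p Y B).map (ev X)) ∧
      (grow S p Y B).length = B.length + 1 := by
  have hYH : ∀ y ∈ Y.map (ev X), y ∈ H := fun y hy => by
    rw [← hY]
    exact Subgroup.subset_closure hy
  have hBA : ∀ x ∈ B, ev X x ∈ orb H (ev X a) := fun x hx =>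
    h.mem hYH _ (List.mem_map_of_mem hx)
  have hsp := fun w => inSp_iff hS hp hc he hBA w
  have hne : ((cands Y B).filter fun v => !inSp S p B v) ≠ [] := by
    obtain ⟨b, hb, y, hy, hor⟩ := h.next hp hc he hY hinf
    obtain ⟨b', hb', rfl⟩ := List.mem_map.1 hb
    obtain ⟨y', hy', rfl⟩ := List.mem_map.1 hy
    have key : ∃ v ∈ cands Y B, ev X v ∉ cl (B.map (ev X)) := by
      rcases hor with hor | hor
      · exact ⟨wcj y' b', mem_cands.2 ⟨b', hb', y', hy', Or.inl rfl⟩, by rwa [ev_wcj]⟩
      · exact ⟨wcj (winv y') b', mem_cands.2 ⟨b', hb', y', hy', Or.inr rfl⟩, by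
          rwa [ev_wcj, ev_winv]⟩
    obtain ⟨v, hv, hv'⟩ := key
    apply List.ne_nil_of_mem (a := v)
    rw [List.mem_filter]
    refine ⟨hv, ?_⟩
    have : inSp S p B v = false := by
      rw [Bool.eq_false_iff]
      intro h1
      exact hv' ((hsp v).1 h1)
    rw [this]
    rfl
  unfold grow
  cases hl : (cands Y B).filter fun v => !inSp S p B v with
  | nil => exact absurd hl hne
  | cons v l =>
    have hv : v ∈ (cands Y B).filter fun v => !inSp S p B v := by
      rw [hl]; exact List.mem_cons_self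
    rw [List.mem_filter] at hv
    obtain ⟨hv1, hv2⟩ := hv
    have hv3 : ev X v ∉ cl (B.map (ev X)) := by
      intro h1
      rw [(hsp v).2 h1] at hv2
      exact absurd hv2 (by simp)
    obtain ⟨b, hb, y, hy, hor⟩ := mem_cands.1 hv1
    refine ⟨?_, rfl⟩
    show Tree (Y.map (ev X)) (ev X a) (ev X v :: B.map (ev X))
    refine Tree.step h (List.mem_map_of_mem hb) (List.mem_map_of_mem hy) ?_ hv3
    rcases hor with rfl | rfl
    · left; rw [ev_wcj]
    · right; rw [ev_wcj, ev_winv]

theorem iter_tree (hS : Orc X S) (hp : 2 ≤ p)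
    (hc : ∀ x ∈ orb H (ev X a), ∀ y ∈ orb H (ev X a), x * y = y * x)
    (he : ∀ x ∈ orb H (ev X a), x ^ p = 1)
    (hY : Subgroup.closure {y | y ∈ Y.map (ev X)} = H)
    (hinf : {x | ∃ h ∈ H, x = cj h (ev X a)}.Infinite) (D : ℕ) :
    Tree (Y.map (ev X)) (ev X a) (((grow S p Y)^[D] [a]).map (ev X)) ∧
      ((grow S p Y)^[D] [a]).length = D + 1 := by
  induction D with
  | zero =>
    refine ⟨Tree.base ?_, rfl⟩
    intro h1
    apply hinf
    refine (Set.finite_singleton (1 : G)).subset ?_
    rintro x ⟨h, -, rfl⟩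
    rw [h1, cj_one']
    exact Set.mem_singleton 1
  | succ D ih =>
    rw [Function.iterate_succ_apply']
    have := grow_tree hS hp hc he hY hinf ih.1
    exact ⟨this.1, by rw [this.2, ih.2]⟩

end grow

section loc
variable {A : Subgroup G}

theorem cl_shifts (n : ℕ) (q : Wd) (C : List Wd) :
    cl ((shifts n q C).map (ev X)) = SH (ev X q) n (C.map (ev X)) := by
  unfold cl SH
  congr 1
  ext x
  simp only [Set.mem_ofPred_eq, List.mem_map]
  constructor
  · rintro ⟨w, hw, rfl⟩
    unfold shifts at hw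
    rw [List.mem_flatMap] at hw
    obtain ⟨i, hi, hw⟩ := hw
    obtain ⟨c, hc, rfl⟩ := List.mem_map.1 hw
    rw [List.mem_range] at hi
    refine ⟨ev X c, ⟨c, hc, rfl⟩, (i : ℤ) - n, ?_, ?_⟩
    · rw [abs_le]
      omega
    · rw [ev_wcj, ev_wz]
  · rintro ⟨b, ⟨c, hc, rfl⟩, s, hs, rfl⟩
    have hs' := abs_le.1 hs
    refine ⟨wcj (wz n (s + n).toNat q) c, ?_, ?_⟩
    · unfold shifts
      rw [List.mem_flatMap]
      refine ⟨(s + n).toNat, ?_, List.mem_map.2 ⟨c, hc, rfl⟩⟩
      rw [List.mem_range]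
      omega
    · rw [ev_wcj, ev_wz]
      congr 2
      omega

theorem mem_tests {n : ℕ} {q v t : Wd} : t ∈ tests p n q v ↔
    ∃ c1 < p, ∃ c2 < p, ¬ (c1 = 0 ∧ c2 = 0) ∧ ∃ i < 2 * n + 1,
      t = wpow c1 v ++ wpow c2 (wcj q v) ++ wz n i q := by
  unfold tests
  rw [List.mem_flatMap]
  constructor
  · rintro ⟨c, hc, ht⟩
    rw [List.mem_filter, List.mem_flatMap] at hc
    obtain ⟨⟨c1, hc1, hc⟩, h0⟩ := hc
    obtain ⟨c2, hc2, rfl⟩ := List.mem_map.1 hc
    obtain ⟨i, hi, rfl⟩ := List.mem_map.1 ht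
    exact ⟨c1, List.mem_range.1 hc1, c2, List.mem_range.1 hc2,
      fun ⟨e1, e2⟩ => by simp [e1, e2] at h0, i, List.mem_range.1 hi, rfl⟩
  · rintro ⟨c1, hc1, c2, hc2, h0, i, hi, rfl⟩
    refine ⟨(c1, c2), ?_, List.mem_map.2 ⟨i, List.mem_range.2 hi, rfl⟩⟩
    rw [List.mem_filter, List.mem_flatMap]
    refine ⟨⟨c1, List.mem_range.2 hc1, List.mem_map.2 ⟨c2, List.mem_range.2 hc2, rfl⟩⟩, ?_⟩
    by_cases e1 : c1 = 0
    · by_cases e2 : c2 = 0
      · exact absurd ⟨e1, e2⟩ h0
      · simp [e2]
    · simp [e1]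

theorem locb_iff (hS : Orc X S) (hp : p.Prime) (hc : ∀ x ∈ A, ∀ y ∈ A, x * y = y * x)
    (he : ∀ x ∈ A, x ^ p = 1) {n : ℕ} {q : Wd} (hq : ∀ x ∈ A, ∀ s : ℤ, cj (ev X q ^ s) x ∈ A)
    {C : List Wd} (hC : ∀ x ∈ C, ev X x ∈ A) {v : Wd} (hv : ev X v ∈ A) :
    locb S p n q C v = true ↔ Loc p (ev X q) n (ev X v) (SH (ev X q) n (C.map (ev X))) := by
  have hqv : cj (ev X q) (ev X v) ∈ A := by
    have := hq _ hv 1
    rwa [zpow_one] at this
  have hsA : ∀ x ∈ shifts n q C, ev X x ∈ A := by
    intro x hx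
    unfold shifts at hx
    rw [List.mem_flatMap] at hx
    obtain ⟨i, -, hx⟩ := hx
    obtain ⟨c, hc', rfl⟩ := List.mem_map.1 hx
    rw [ev_wcj, ev_wz]
    exact hq _ (hC c hc') _
  have hsp := fun w => inSp_iff hS hp.two_le hc he hsA w
  have h1 : locb S p n q C v = true ↔ ∀ t ∈ tests p n q v,
      ev X t ∉ SH (ev X q) n (C.map (ev X)) := by
    unfold locb
    rw [Bool.not_eq_true', List.any_eq_false]
    constructor
    · intro h t ht h2
      rw [← cl_shifts] at h2
      exact h t ht ((hsp t).2 h2)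
    · intro h t ht h2
      apply h t ht
      rw [← cl_shifts]
      exact (hsp t).1 h2
  rw [h1]
  have hred : ∀ x ∈ A, ∀ c : ℤ, x ^ c = x ^ (c % p).toNat := by
    intro x hx c
    have h2 : (0 : ℤ) ≤ c % p := Int.emod_nonneg _ (by exact_mod_cast hp.ne_zero)
    conv_lhs => rw [← Int.emod_add_mul_ediv c p, zpow_add, zpow_mul, zpow_natCast, he x hx,
      one_zpow, mul_one]
    rw [← zpow_natCast, Int.toNat_of_nonneg h2]
  have hp0 : (0 : ℤ) < p := by exact_mod_cast hp.pos
  constructor
  · intro h c1 c2 s hs hm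
    by_contra hcon
    have hb1 : (c1 % p).toNat < p := by
      have := Int.emod_lt_of_pos c1 hp0
      omega
    have hb2 : (c2 % p).toNat < p := by
      have := Int.emod_lt_of_pos c2 hp0
      omega
    have hs' := abs_le.1 hs
    refine h (wpow (c1 % p).toNat v ++ wpow (c2 % p).toNat (wcj q v) ++ wz n (s + n).toNat q)
      (mem_tests.2 ⟨_, hb1, _, hb2, ?_, (s + n).toNat, by omega, rfl⟩) ?_
    · rintro ⟨h3, h4⟩
      have h5 := Int.emod_nonneg c1 (ne_of_gt hp0)
      have h6 := Int.emod_nonneg c2 (ne_of_gt hp0)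
      exact hcon ⟨Int.dvd_of_emod_eq_zero (by omega), Int.dvd_of_emod_eq_zero (by omega)⟩
    · rw [ev_append, ev_append, ev_wpow, ev_wpow, ev_wcj, ev_wz, ← hred _ hv, ← hred _ hqv]
      have : (((s + n).toNat : ℕ) : ℤ) - n = s := by omega
      rw [this]
      exact hm
  · intro h t ht hm
    obtain ⟨c1, hc1, c2, hc2, h0, i, hi, rfl⟩ := mem_tests.1 ht
    rw [ev_append, ev_append, ev_wpow, ev_wpow, ev_wcj, ev_wz, ← zpow_natCast,
      ← zpow_natCast] at hm
    obtain ⟨d1, d2⟩ := h c1 c2 ((i : ℤ) - n) (by rw [abs_le]; omega) hm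
    apply h0
    have e1 : p ∣ c1 := by exact_mod_cast d1
    have e2 : p ∣ c2 := by exact_mod_cast d2
    exact ⟨Nat.eq_zero_of_dvd_of_lt e1 hc1, Nat.eq_zero_of_dvd_of_lt e2 hc2⟩

theorem Loc.mono {q v : G} {n : ℕ} {W W' : Subgroup G} (h : W ≤ W') (hL : Loc p q n v W') :
    Loc p q n v W := fun c1 c2 s hs hm => hL c1 c2 s hs (h hm)

/-- the greedy choice: good, short, and if it is too short nothing is left -/
theorem pick_spec (hS : Orc X S) (hp : p.Prime) (hc : ∀ x ∈ A, ∀ y ∈ A, x * y = y * x)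
    (he : ∀ x ∈ A, x ^ p = 1) {n : ℕ} {q : Wd} (hq : ∀ x ∈ A, ∀ s : ℤ, cj (ev X q ^ s) x ∈ A)
    {G0 : List Wd} (hG : ∀ x ∈ G0, ev X x ∈ A) (M : ℕ) :
    ∀ (B C : List Wd), (∀ x ∈ B, ev X x ∈ A) → (∀ x ∈ C, ev X x ∈ A) →
      Good p (ev X q) n (G0.map (ev X)) (C.map (ev X)) → C.length ≤ M →
      ∃ C', C' = B.foldl (fun C v => if Pool.Agent.MSR.ltb C.length M &&
          locb S p n q (C ++ G0) v then v :: C else C) C ∧
        Good p (ev X q) n (G0.map (ev X)) (C'.map (ev X)) ∧ C'.length ≤ M ∧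
        (∀ x ∈ C', ev X x ∈ A) ∧ (∀ x ∈ C, x ∈ C') ∧
        (C'.length < M → ∀ v ∈ B, ¬ Loc p (ev X q) n (ev X v)
          (SH (ev X q) n ((C' ++ G0).map (ev X)))) := by
  intro B
  induction B with
  | nil =>
    intro C _ hC hgood hlen
    exact ⟨C, rfl, hgood, hlen, hC, fun x hx => hx, fun _ v hv => absurd hv (by simp)⟩
  | cons v B ih =>
    intro C hB hC hgood hlen
    have hvA := hB v List.mem_cons_self
    have hCG : ∀ x ∈ C ++ G0, ev X x ∈ A := by
      intro x hx
      rcases List.mem_append.1 hx with hx | hx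
      · exact hC x hx
      · exact hG x hx
    have hB' : ∀ x ∈ B, ev X x ∈ A := fun x hx => hB x (List.mem_cons_of_mem _ hx)
    rw [List.foldl_cons]
    by_cases hif : (Pool.Agent.MSR.ltb C.length M && locb S p n q (C ++ G0) v) = true
    · rw [if_pos hif]
      rw [Bool.and_eq_true] at hif
      obtain ⟨h1, h2⟩ := hif
      have h3 : C.length < M := by simpa [Pool.Agent.MSR.ltb] using h1
      have h4 := (locb_iff hS hp hc he hq hCG hvA).1 h2
      rw [List.map_append] at h4
      obtain ⟨C', e, g1, g2, g3, g4, g5⟩ := ih (v :: C) hB' (by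
        intro x hx
        rcases List.mem_cons.1 hx with rfl | hx
        · exact hvA
        · exact hC x hx) ⟨h4, hgood⟩ (by rw [List.length_cons]; omega)
      refine ⟨C', e, g1, g2, g3, fun x hx => g4 x (List.mem_cons_of_mem _ hx), fun hl w hw => ?_⟩
      rcases List.mem_cons.1 hw with rfl | hw
      · intro hL
        have hmem : ev X w ∈ SH (ev X q) n ((C' ++ G0).map (ev X)) :=
          mem_SH_zero (List.mem_map_of_mem (List.mem_append_left _ (g4 w List.mem_cons_self)))
        have := hL 1 0 0 (by simp) (by simpa using hmem)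
        have h5 := Int.le_of_dvd (by norm_num) this.1
        have h6 := hp.two_le
        omega
      · exact g5 hl w hw
    · rw [if_neg hif]
      obtain ⟨C', e, g1, g2, g3, g4, g5⟩ := ih C hB' hC hgood hlen
      refine ⟨C', e, g1, g2, g3, g4, fun hl w hw => ?_⟩
      rcases List.mem_cons.1 hw with rfl | hw
      · intro hL
        apply hif
        rw [Bool.and_eq_true]
        have hCC : C.length ≤ C'.length := by
          have : ∀ (B C : List Wd), C.length ≤ (B.foldl (fun C v =>
              if Pool.Agent.MSR.ltb C.length M && locb S p n q (C ++ G0) v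
              then v :: C else C) C).length := by
            intro B
            induction B with
            | nil => intro C; exact le_rfl
            | cons v B ih =>
              intro C
              rw [List.foldl_cons]
              refine le_trans ?_ (ih _)
              split_ifs
              · rw [List.length_cons]; omega
              · exact le_rfl
          rw [e]
          exact this B C
        refine ⟨by simpa [Pool.Agent.MSR.ltb] using lt_of_le_of_lt hCC hl, ?_⟩
        apply (locb_iff hS hp hc he hq hCG hvA).2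
        refine hL.mono (SH_mono le_rfl ?_)
        intro x hx
        obtain ⟨y, hy, rfl⟩ := List.mem_map.1 hx
        apply List.mem_map_of_mem
        rcases List.mem_append.1 hy with hy | hy
        · exact List.mem_append_left _ (g4 y hy)
        · exact List.mem_append_right _ hy
      · exact g5 hl w hw

end loc

end Pool.Agent.SspConj
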