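import Pool.Agent.Lib.MP_a9d022_lc.Span

/-! # Exclusive choices by subset products, with drift control -/

namespace Pool.Agent.SspConj

variable {G : Type} [Group G]

/-- conjugation -/
def cj (g x : G) : G := g * x * g⁻¹

theorem cj_mul (g x y : G) : cj g (x * y) = cj g x * cj g y := by unfold cj; group
theorem cj_one' (g : G) : cj g 1 = 1 := by unfold cj; group
theorem cj_inv (g x : G) : cj g x⁻¹ = (cj g x)⁻¹ := by unfold cj; group
theorem cj_cj (g h x : G) : cj g (cj h x) = cj (g * h) x := by unfold cj; group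
theorem one_cj (x : G) : cj 1 x = x := by unfold cj; group
theorem cj_pow (g x : G) (n : ℕ) : cj g (x ^ n) = (cj g x) ^ n := by
  induction n with
  | zero => simp [cj_one']
  | succ n ih => rw [pow_succ, cj_mul, ih, pow_succ]
theorem cj_zpow (g x : G) (n : ℤ) : cj g (x ^ n) = (cj g x) ^ n := by
  unfold cj
  exact (conj_zpow).symm

/-- the subgroup generated by the conjugates of the entries by small powers of `q` -/
def SH (q : G) (n : ℕ) (B : List G) : Subgroup G :=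
  Subgroup.closure {x | ∃ b ∈ B, ∃ s : ℤ, |s| ≤ n ∧ x = cj (q ^ s) b}

theorem mem_SH {q : G} {n : ℕ} {B : List G} {b : G} (hb : b ∈ B) {s : ℤ} (hs : |s| ≤ n) :
    cj (q ^ s) b ∈ SH q n B := Subgroup.subset_closure ⟨b, hb, s, hs, rfl⟩

theorem mem_SH_zero {q : G} {n : ℕ} {B : List G} {b : G} (hb : b ∈ B) : b ∈ SH q n B := by
  have := mem_SH (q := q) (n := n) hb (s := 0) (by simp)
  rwa [zpow_zero, one_cj] at this

theorem SH_mono {q : G} {n m : ℕ} (h : n ≤ m) {B C : List G} (hBC : ∀ x ∈ B, x ∈ C) :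
    SH q n B ≤ SH q m C := by
  unfold SH
  apply Subgroup.closure_mono
  rintro x ⟨b, hb, s, hs, rfl⟩
  exact ⟨b, hBC b hb, s, hs.trans (by exact_mod_cast h), rfl⟩

theorem cj_mem_SH {q : G} {n m : ℕ} {B : List G} {x : G} (hx : x ∈ SH q n B) {s : ℤ}
    (hs : |s| + n ≤ m) : cj (q ^ s) x ∈ SH q m B := by
  unfold SH at hx
  induction hx using Subgroup.closure_induction with
  | mem x hx =>
    obtain ⟨b, hb, t, ht, rfl⟩ := hx
    rw [cj_cj, ← zpow_add]
    exact mem_SH hb ((abs_add_le s t).trans (by omega))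
  | one => rw [cj_one']; exact one_mem _
  | mul x y _ _ hx hy => rw [cj_mul]; exact mul_mem hx hy
  | inv x _ hx => rw [cj_inv]; exact inv_mem hx

theorem SH_le {q : G} {n : ℕ} {B : List G} {A : Subgroup G} (hB : ∀ x ∈ B, x ∈ A)
    (hq : ∀ x ∈ A, ∀ s : ℤ, cj (q ^ s) x ∈ A) : SH q n B ≤ A := by
  unfold SH
  rw [Subgroup.closure_le]
  rintro x ⟨b, hb, s, _, rfl⟩
  exact hq b (hB b hb) s

theorem cl_le_SH {q : G} {n : ℕ} {B : List G} : cl B ≤ SH q n B :=
  cl_le fun _ hx => mem_SH_zero hx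

/-- local independence of `v` -/
def Loc (p : ℕ) (q : G) (n : ℕ) (v : G) (W : Subgroup G) : Prop :=
  ∀ c₁ c₂ S : ℤ, |S| ≤ n → v ^ c₁ * (cj q v) ^ c₂ * q ^ S ∈ W → (p : ℤ) ∣ c₁ ∧ (p : ℤ) ∣ c₂

/-- all entries are locally independent of the later ones -/
def Good (p : ℕ) (q : G) (n : ℕ) (Gam : List G) : List G → Prop
  | [] => True
  | v :: l => Loc p q n v (SH q n (l ++ Gam)) ∧ Good p q n Gam l

/-- a block: the two options, and two coordinates -/
structure Blk (G : Type) where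
  /-- first option -/
  u : G
  /-- second option -/
  b : G
  /-- first coordinate -/
  r : G
  /-- second coordinate -/
  s : G

/-- the five factors of a block -/
def Blk.items (q : G) (t : Blk G) : List G :=
  [(t.r * cj q t.r)⁻¹, t.s⁻¹, t.u * t.r * q, t.b * t.s, t.r * q⁻¹]

/-- the coordinates of a list of blocks -/
def crd (T : List (Blk G)) : List G := T.flatMap fun t => [t.r, t.s]

theorem crd_cons (t : Blk G) (T : List (Blk G)) : crd (t :: T) = t.r :: t.s :: crd T := rfl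

theorem sublist_pow {l : List G} {a : G} {u : List G} (h : u.Sublist (a :: l)) :
    ∃ e : ℕ, (e = 0 ∨ e = 1) ∧ ∃ u' : List G, u'.Sublist l ∧ u.prod = a ^ e * u'.prod := by
  cases h with
  | cons _ h => exact ⟨0, Or.inl rfl, _, h, by simp⟩
  | cons_cons _ h => exact ⟨1, Or.inr rfl, _, h, by simp⟩

/-- a subset product of the factors of a block -/
theorem items_prod {q : G} {t : Blk G} {u : List G} (h : u.Sublist (t.items q)) :
    ∃ g d e₁ e₂ e₃ : ℕ, (g = 0 ∨ g = 1) ∧ (d = 0 ∨ d = 1) ∧ (e₁ = 0 ∨ e₁ = 1) ∧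
      (e₂ = 0 ∨ e₂ = 1) ∧ (e₃ = 0 ∨ e₃ = 1) ∧
      u.prod = ((t.r * cj q t.r)⁻¹) ^ g * (t.s⁻¹) ^ d * (t.u * t.r) ^ e₁ *
        cj (q ^ (e₁ : ℤ)) ((t.b * t.s) ^ e₂ * t.r ^ e₃) * q ^ ((e₁ : ℤ) - e₃) := by
  obtain ⟨g, hg, u1, h1, e1⟩ := sublist_pow h
  obtain ⟨d, hd, u2, h2, e2⟩ := sublist_pow h1
  obtain ⟨a, ha, u3, h3, e3⟩ := sublist_pow h2
  obtain ⟨b, hb, u4, h4, e4⟩ := sublist_pow h3
  obtain ⟨c, hc, u5, h5, e5⟩ := sublist_pow h4
  have h6 : u5 = [] := by simpa using h5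
  refine ⟨g, d, a, b, c, hg, hd, ha, hb, hc, ?_⟩
  rw [e1, e2, e3, e4, e5, h6, List.prod_nil, mul_one]
  have key : ∀ x : G, (t.u * t.r * q) ^ a * (x * (t.r * q⁻¹) ^ c) =
      (t.u * t.r) ^ a * cj (q ^ (a : ℤ)) (x * t.r ^ c) * q ^ ((a : ℤ) - c) := by
    intro x
    rcases ha with rfl | rfl <;> rcases hc with rfl | rfl <;> simp [cj] <;> group
  rw [key]
  group

end Pool.Agent.SspConj
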