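import Pool.Agent.Lib.MP_17a834_lc.Msr.Nae

/-! # Not-all-equal satisfiability as a problem on exclusive choices -/

namespace Pool.Agent.SspConj

open Pool.Agent.MSR (NAE)

/-- a choice of nothing, the first or the second option of every block -/
def Sel {α : Type} (bl : List (List α × List α)) (sel : List (List α)) : Prop :=
  List.Forall₂ (fun B s => s = [] ∨ s = B.1 ∨ s = B.2) bl sel

/-- signed clauses -/
def clauses (H : List (List ℕ)) : List (Bool × List ℕ) :=
  H.flatMap fun e => [(true, e), (false, e)]

/-- a bound for the number of coordinates of a clause -/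
def width (H : List (List ℕ)) : ℕ := (H.map List.length).sum + 1

/-- the occurrences of literals: coordinate, sign, variable -/
def occ (K : ℕ) (Z : List ((Bool × List ℕ) × ℕ)) : List (ℕ × Bool × ℕ) :=
  Z.flatMap fun z => z.1.2.zipIdx.map fun w => (z.2 * K + (w.2 + 1), z.1.1, w.1)

/-- the coordinates where `v` occurs with the sign `b` -/
def vopt (K : ℕ) (Z : List ((Bool × List ℕ) × ℕ)) (b : Bool) (v : ℕ) : List ℕ :=
  ((occ K Z).filter fun o => (o.2.1 == b) && (o.2.2 == v)).map Prod.fst

/-- the blocks of a clause with `k` literals and base coordinate `i` -/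
def cblk (i k : ℕ) : List (List ℕ × List ℕ) :=
  (List.range k).map fun j => ([i + j], [i + (j + 1)])

/-- the blocks of all clauses -/
def cblks (K : ℕ) (Z : List ((Bool × List ℕ) × ℕ)) : List (List ℕ × List ℕ) :=
  Z.flatMap fun z => cblk (z.2 * K) z.1.2.length

/-- the coordinates of a clause -/
def crng (i k : ℕ) : List ℕ := (List.range (k + 1)).map fun j => i + j

/-- all coordinates -/
def targ (K : ℕ) (Z : List ((Bool × List ℕ) × ℕ)) : List ℕ :=
  Z.flatMap fun z => crng (z.2 * K) z.1.2.length

/-- the blocks of an instance -/
def blks (N : ℕ) (H : List (List ℕ)) : List (List ℕ × List ℕ) :=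
  ((List.range N).map fun v => (vopt (width H) (clauses H).zipIdx true v,
    vopt (width H) (clauses H).zipIdx false v)) ++ cblks (width H) (clauses H).zipIdx

/-- the target of an instance -/
def targH (H : List (List ℕ)) : List ℕ := targ (width H) (clauses H).zipIdx

/-! ### completeness -/

theorem cover (T : ℕ → Bool) (i : ℕ) : ∀ k : ℕ, (∃ j ≤ k, T j = true) →
    ∃ sel, Sel (cblk i k) sel ∧
      (sel.flatten ++ ((List.range (k + 1)).filter T).map fun j => i + j).Perm (crng i k) := by
  intro k
  induction k with
  | zero =>
    rintro ⟨j, hj, hT⟩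
    have : j = 0 := by omega
    subst this
    exact ⟨[], List.Forall₂.nil, by simp [crng, hT]⟩
  | succ k ih =>
    rintro ⟨j, hj, hT⟩
    have hblk : cblk i (k + 1) = cblk i k ++ [([i + k], [i + (k + 1)])] := by
      unfold cblk
      rw [List.range_succ, List.map_append]
      rfl
    have hrng : crng i (k + 1) = crng i k ++ [i + (k + 1)] := by
      unfold crng
      rw [List.range_succ, List.map_append]
      rfl
    have hfil : ((List.range (k + 1 + 1)).filter T).map (fun j => i + j) =
        ((List.range (k + 1)).filter T).map (fun j => i + j) ++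
          if T (k + 1) then [i + (k + 1)] else [] := by
      rw [List.range_succ, List.filter_append, List.map_append]
      congr 1
      cases h : T (k + 1) <;> simp [h]
    by_cases hk : ∃ j ≤ k, T j = true
    · obtain ⟨sel, hsel, hperm⟩ := ih hk
      cases h : T (k + 1) with
      | true =>
        refine ⟨sel ++ [[]], ?_, ?_⟩
        · rw [hblk]
          exact List.rel_append (by exact hsel) (List.Forall₂.cons (Or.inl rfl) List.Forall₂.nil)
        · rw [hfil, hrng, h, List.flatten_append]
          simp only [List.flatten_cons, List.flatten_nil, List.append_nil, if_true]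
          rw [← List.append_assoc]
          exact hperm.append_right _
      | false =>
        refine ⟨sel ++ [[i + (k + 1)]], ?_, ?_⟩
        · rw [hblk]
          exact List.rel_append (by exact hsel)
            (List.Forall₂.cons (Or.inr (Or.inr rfl)) List.Forall₂.nil)
        · rw [hfil, hrng, h, List.flatten_append]
          simp only [List.flatten_cons, List.flatten_nil, List.append_nil, Bool.false_eq_true,
            if_false, List.append_assoc]
          exact ((List.perm_append_comm).append_left _).trans (by
            rw [← List.append_assoc]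
            exact hperm.append_right _)
    · have hj' : j = k + 1 := by
        by_contra hne
        exact hk ⟨j, by omega, hT⟩
      subst hj'
      refine ⟨(List.range (k + 1)).map fun j => [i + j], ?_, ?_⟩
      · unfold cblk Sel
        rw [List.forall₂_map_left_iff, List.forall₂_map_right_iff, List.forall₂_same]
        intro x _
        exact Or.inr (Or.inl rfl)
      · have h0 : (List.range (k + 1)).filter T = [] := by
          rw [List.filter_eq_nil_iff]
          intro a ha hTa
          exact hk ⟨a, by have := List.mem_range.1 ha; omega, hTa⟩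
        rw [hfil, h0, hT, hrng]
        have h1 : ((List.range (k + 1)).map fun j => [i + j]).flatten = crng i k := by
          unfold crng
          rw [← List.flatMap_def, List.map_eq_flatMap]
        rw [h1]
        simp

theorem zipIdx_eq (e : List ℕ) :
    e.zipIdx = (List.range e.length).map fun j => (e.getD j 0, j) := by
  apply List.ext_getElem
  · simp
  · intro n h1 h2
    have hn : n < e.length := by simpa using h1
    rw [List.getElem_map, List.getElem_range, List.getElem_zipIdx,
      List.getD_eq_getElem _ _ hn]
    simp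

theorem occ_cons (K : ℕ) (z : (Bool × List ℕ) × ℕ) (Z : List ((Bool × List ℕ) × ℕ)) :
    occ K (z :: Z) = (z.1.2.zipIdx.map fun w => (z.2 * K + (w.2 + 1), z.1.1, w.1)) ++ occ K Z :=
  rfl

theorem cover_all (f : ℕ → Bool) (K : ℕ) : ∀ Z : List ((Bool × List ℕ) × ℕ),
    (∀ z ∈ Z, ∃ v ∈ z.1.2, f v = z.1.1) → ∃ sel, Sel (cblks K Z) sel ∧
      (sel.flatten ++ ((occ K Z).filter fun o => o.2.1 == f o.2.2).map Prod.fst).Perm
        (targ K Z) := by
  intro Z
  induction Z with
  | nil => intro _; exact ⟨[], List.Forall₂.nil, by simp [occ, targ]⟩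
  | cons z Z ih =>
    intro h
    obtain ⟨sel', hsel', hperm'⟩ := ih fun z' hz' => h z' (List.mem_cons_of_mem _ hz')
    obtain ⟨T, hT⟩ : ∃ T : ℕ → Bool, T = fun j => match j with
      | 0 => false
      | j + 1 => z.1.1 == f (z.1.2.getD j 0) := ⟨_, rfl⟩
    have hT0 : T 0 = false := by rw [hT]
    have hTs : ∀ j, T (j + 1) = (z.1.1 == f (z.1.2.getD j 0)) := fun j => by rw [hT]
    obtain ⟨v, hv, hfv⟩ := h z List.mem_cons_self
    obtain ⟨j, hj, hjv⟩ := List.getElem_of_mem hv
    obtain ⟨sel, hsel, hperm⟩ := cover T (z.2 * K) z.1.2.length ⟨j + 1, by omega, by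
      rw [hTs, List.getD_eq_getElem _ _ hj, hjv, hfv]
      simp⟩
    have hpos : ((List.range (z.1.2.length + 1)).filter T).map (fun j => z.2 * K + j) =
        ((z.1.2.zipIdx.map fun w => (z.2 * K + (w.2 + 1), z.1.1, w.1)).filter
          fun o => o.2.1 == f o.2.2).map Prod.fst := by
      rw [List.range_succ_eq_map, List.filter_cons, hT0, if_neg (by simp), zipIdx_eq,
        List.map_map, List.filter_map, List.filter_map, List.map_map, List.map_map]
      have e1 : (T ∘ Nat.succ) = ((fun o : ℕ × Bool × ℕ => o.2.1 == f o.2.2) ∘
          ((fun w : ℕ × ℕ => (z.2 * K + (w.2 + 1), z.1.1, w.1)) ∘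
            fun j => (z.1.2.getD j 0, j))) := by
        funext j
        exact hTs j
      rw [e1]
      rfl
    refine ⟨sel ++ sel', List.rel_append (by exact hsel) (by exact hsel'), ?_⟩
    rw [occ_cons, List.filter_append, List.map_append, ← hpos, List.flatten_append]
    have h1 : targ K (z :: Z) = crng (z.2 * K) z.1.2.length ++ targ K Z := rfl
    rw [h1]
    refine List.Perm.trans ?_ (hperm.append hperm')
    rw [List.append_assoc, List.append_assoc]
    refine List.Perm.append_left _ ?_
    rw [← List.append_assoc, ← List.append_assoc]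
    exact (List.perm_append_comm).append_right _

theorem flatMap_one (v0 x : ℕ) (c : Bool) : ∀ N : ℕ,
    ((List.range N).flatMap fun v => if (v0 == v) && c then [x] else []) =
      if v0 < N ∧ c = true then [x] else [] := by
  intro N
  induction N with
  | zero => simp
  | succ N ih =>
    rw [List.range_succ, List.flatMap_append, ih]
    cases c with
    | false => simp
    | true =>
      rcases lt_trichotomy v0 N with h | h | h
      · have h1 : v0 ≠ N := by omega
        have h2 : v0 < N + 1 := by omega
        simp [h, h1, h2]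
      · subst h
        simp
      · have h1 : v0 ≠ N := by omega
        have h2 : ¬ v0 < N := by omega
        have h3 : ¬ v0 < N + 1 := by omega
        simp [h1, h2, h3]

/-- the options of a variable for a list of occurrences -/
def vl (l : List (ℕ × Bool × ℕ)) (b : Bool) (v : ℕ) : List ℕ :=
  (l.filter fun o => (o.2.1 == b) && (o.2.2 == v)).map Prod.fst

theorem varperm (f : ℕ → Bool) (N : ℕ) : ∀ l : List (ℕ × Bool × ℕ), (∀ o ∈ l, o.2.2 < N) →
    ((List.range N).flatMap fun v => vl l (f v) v).Perm
      ((l.filter fun o => o.2.1 == f o.2.2).map Prod.fst) := by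
  intro l
  induction l with
  | nil =>
    intro _
    have : ((List.range N).flatMap fun v => vl [] (f v) v) = [] := by
      rw [List.flatMap_eq_nil_iff]
      intro v _
      rfl
    rw [this]
    simp
  | cons o l ih =>
    intro h
    have h1 : ∀ v, vl (o :: l) (f v) v =
        (if (o.2.2 == v) && (o.2.1 == f o.2.2) then [o.1] else []) ++ vl l (f v) v := by
      intro v
      unfold vl
      rw [List.filter_cons]
      by_cases hv : o.2.2 = v
      · subst hv
        cases hb : (o.2.1 == f o.2.2) <;> simp
      · have : (o.2.2 == v) = false := by simpa using hv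
        simp [this]
    have h2 : ((List.range N).flatMap fun v => vl (o :: l) (f v) v) =
        (List.range N).flatMap fun v =>
          (if (o.2.2 == v) && (o.2.1 == f o.2.2) then [o.1] else []) ++ vl l (f v) v := by
      congr 1
      funext v
      exact h1 v
    rw [h2]
    refine ((List.flatMap_append_perm _ _ _).symm).trans ?_
    rw [flatMap_one, List.filter_cons]
    have h3 := ih fun o' ho' => h o' (List.mem_cons_of_mem _ ho')
    have h4 : o.2.2 < N := h o List.mem_cons_self
    cases hb : (o.2.1 == f o.2.2) with
    | true => simpa [h4] using h3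
    | false => simpa using h3

theorem mem_clauses {H : List (List ℕ)} {c : Bool × List ℕ} (h : c ∈ clauses H) : c.2 ∈ H := by
  unfold clauses at h
  rw [List.mem_flatMap] at h
  obtain ⟨e, he, hc⟩ := h
  simp only [List.mem_cons, List.not_mem_nil, or_false] at hc
  rcases hc with rfl | rfl <;> exact he

theorem zipIdx_fst {α : Type} {l : List α} {z : α × ℕ} (h : z ∈ l.zipIdx) : z.1 ∈ l :=
  List.fst_mem_of_mem_zipIdx h

theorem occ_lt {H : List (List ℕ)} {N : ℕ} (hN : ∀ e ∈ H, ∀ v ∈ e, v < N) {K : ℕ} :
    ∀ o ∈ occ K (clauses H).zipIdx, o.2.2 < N := by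
  intro o ho
  unfold occ at ho
  rw [List.mem_flatMap] at ho
  obtain ⟨z, hz, ho⟩ := ho
  rw [List.mem_map] at ho
  obtain ⟨w, hw, rfl⟩ := ho
  exact hN _ (mem_clauses (zipIdx_fst hz)) _ (zipIdx_fst hw)

/-- a not-all-equal assignment gives choices with exactly the target -/
theorem complete {H : List (List ℕ)} {N : ℕ} (hN : ∀ e ∈ H, ∀ v ∈ e, v < N) (h : NAE H) :
    ∃ sel, Sel (blks N H) sel ∧ sel.flatten.Perm (targH H) := by
  obtain ⟨f, hf⟩ := h
  have hsat : ∀ z ∈ (clauses H).zipIdx, ∃ v ∈ z.1.2, f v = z.1.1 := by
    intro z hz
    obtain ⟨a, ha, b, hb, hab⟩ := hf _ (mem_clauses (zipIdx_fst hz))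
    cases h1 : z.1.1 <;> cases h2 : f a <;> cases h3 : f b
    · exact ⟨a, ha, h2⟩
    · exact ⟨a, ha, h2⟩
    · exact ⟨b, hb, h3⟩
    · exact absurd (h2.trans h3.symm) hab
    · exact absurd (h2.trans h3.symm) hab
    · exact ⟨b, hb, h3⟩
    · exact ⟨a, ha, h2⟩
    · exact ⟨a, ha, h2⟩
  obtain ⟨sel, hsel, hperm⟩ := cover_all f (width H) _ hsat
  refine ⟨((List.range N).map fun v => vopt (width H) (clauses H).zipIdx (f v) v) ++ sel, ?_, ?_⟩
  · unfold blks Sel
    refine List.rel_append ?_ (by exact hsel)
    rw [List.forall₂_map_left_iff, List.forall₂_map_right_iff, List.forall₂_same]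
    intro v _
    cases f v
    · exact Or.inr (Or.inr rfl)
    · exact Or.inr (Or.inl rfl)
  · rw [List.flatten_append, ← List.flatMap_def]
    have h1 := varperm f N (occ (width H) (clauses H).zipIdx) (occ_lt hN)
    refine (List.Perm.append_right _ (by exact h1)).trans ?_
    exact (List.perm_append_comm).trans hperm

end Pool.Agent.SspConj
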