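import Pool.Agent.Lib.MP_a9d022_lc.Span

/-! # Products over an independent list determine the multiplicities modulo `p` -/

namespace Pool.Agent.SspConj

variable {G : Type} [Group G]

/-- product with given exponents -/
def pw : List G → (ℕ → ℕ) → G
  | [], _ => 1
  | g :: Gam, e => g ^ e 0 * pw Gam fun n => e (n + 1)

theorem pw_congr : ∀ {Gam : List G} {e e' : ℕ → ℕ}, (∀ n < Gam.length, e n = e' n) →
    pw Gam e = pw Gam e' := by
  intro Gam
  induction Gam with
  | nil => intro e e' _; rfl
  | cons g Gam ih =>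
    intro e e' h
    rw [pw, pw, h 0 (by simp), ih (fun n hn => h (n + 1) (by simpa using hn))]

theorem pw_mem {Gam : List G} {e : ℕ → ℕ} : pw Gam e ∈ cl Gam := by
  induction Gam generalizing e with
  | nil => exact one_mem _
  | cons g Gam ih =>
    rw [pw]
    exact mul_mem (pow_mem (subset_cl _ List.mem_cons_self) _)
      (cl_mono' (fun x hx => List.mem_cons_of_mem _ hx) ih)

theorem pw_zero {Gam : List G} {e : ℕ → ℕ} (h : ∀ n < Gam.length, e n = 0) : pw Gam e = 1 := by
  induction Gam generalizing e with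
  | nil => rfl
  | cons g Gam ih =>
    rw [pw, h 0 (by simp), ih (fun n hn => h (n + 1) (by simpa using hn)), pow_zero, one_mul]

theorem pw_single {Gam : List G} {i : ℕ} :
    pw Gam (fun n => if n = i then 1 else 0) = Gam.getD i 1 := by
  induction Gam generalizing i with
  | nil => simp [pw]
  | cons g Gam ih =>
    cases i with
    | zero =>
      rw [pw, pw_zero (fun n _ => by simp)]
      simp
    | succ i =>
      rw [pw]
      simp only [List.getD_cons_succ]
      rw [← ih]
      simp

variable {A : Subgroup G} {p : ℕ}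

theorem pw_add (hc : ∀ x ∈ A, ∀ y ∈ A, x * y = y * x) {Gam : List G} (hGam : ∀ x ∈ Gam, x ∈ A)
    {e e' : ℕ → ℕ} : pw Gam (fun n => e n + e' n) = pw Gam e * pw Gam e' := by
  induction Gam generalizing e e' with
  | nil => simp [pw]
  | cons g Gam ih =>
    have hG' : ∀ x ∈ Gam, x ∈ A := fun x hx => hGam x (List.mem_cons_of_mem _ hx)
    rw [pw, pw, pw, ih hG', pow_add]
    have h1 : g ^ e' 0 ∈ A := pow_mem (hGam g List.mem_cons_self) _
    have h2 : pw Gam (fun n => e (n + 1)) ∈ A := cl_le hG' pw_mem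
    have h3 := hc _ h1 _ h2
    calc g ^ e 0 * g ^ e' 0 * (pw Gam (fun n => e (n + 1)) * pw Gam (fun n => e' (n + 1)))
        = g ^ e 0 * (g ^ e' 0 * pw Gam (fun n => e (n + 1))) * pw Gam (fun n => e' (n + 1)) := by
          group
      _ = _ := by rw [h3]; group

theorem pw_count (hc : ∀ x ∈ A, ∀ y ∈ A, x * y = y * x) {Gam : List G}
    (hGam : ∀ x ∈ Gam, x ∈ A) (l : List ℕ) :
    (l.map fun i => Gam.getD i 1).prod = pw Gam fun n => l.count n := by
  induction l with
  | nil => simp [pw_zero]
  | cons i l ih =>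
    rw [List.map_cons, List.prod_cons, ih, ← pw_single, ← pw_add hc hGam]
    apply pw_congr
    intro n _
    rw [List.count_cons, add_comm]
    congr 1
    by_cases h : n = i
    · simp [h]
    · have : ¬ i = n := fun h' => h h'.symm
      simp [h, this]

theorem pw_inj (hp : p.Prime) (he : ∀ x ∈ A, x ^ p = 1) {Gam : List G}
    (hGam : ∀ x ∈ Gam, x ∈ A) (hI : Ind Gam) {e e' : ℕ → ℕ} (h : pw Gam e = pw Gam e') :
    ∀ n < Gam.length, e n ≡ e' n [MOD p] := by
  induction Gam generalizing e e' with
  | nil => intro n hn; simp at hn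
  | cons g Gam ih =>
    have hG' : ∀ x ∈ Gam, x ∈ A := fun x hx => hGam x (List.mem_cons_of_mem _ hx)
    have hgA := hGam g List.mem_cons_self
    rw [pw, pw] at h
    have h1 : g ^ ((e 0 : ℤ) - e' 0) ∈ cl Gam := by
      have : g ^ ((e 0 : ℤ) - e' 0) = (g ^ e' 0)⁻¹ * (g ^ e 0 * pw Gam fun n => e (n + 1)) *
          (pw Gam fun n => e (n + 1))⁻¹ := by
        rw [← zpow_natCast, ← zpow_natCast, ← zpow_neg, mul_assoc, mul_assoc, mul_inv_cancel,
          mul_one, ← zpow_add]
        congr 1
        ring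
      rw [this, h, ← mul_assoc, inv_mul_cancel, one_mul]
      exact mul_mem pw_mem (inv_mem pw_mem)
    have h2 : (p : ℤ) ∣ (e 0 : ℤ) - e' 0 := by
      by_contra hnd
      apply hI.1
      have hcop : IsCoprime ((e 0 : ℤ) - e' 0) (p : ℤ) := by
        have hpp : Prime (p : ℤ) := Nat.prime_iff_prime_int.1 hp
        exact ((Prime.coprime_iff_not_dvd hpp).2 hnd).symm
      obtain ⟨a, b, hab⟩ := hcop
      have : g = (g ^ ((e 0 : ℤ) - e' 0)) ^ a * (g ^ (p : ℤ)) ^ b := by
        rw [← zpow_mul, ← zpow_mul, ← zpow_add]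
        conv_lhs => rw [← zpow_one g]
        congr 1
        linarith
      rw [this, zpow_natCast, he g hgA, one_zpow, mul_one]
      exact zpow_mem h1 _
    have h3 : e 0 ≡ e' 0 [MOD p] := (Nat.modEq_iff_dvd.2 (by
      have := (dvd_neg).2 h2
      rwa [neg_sub] at this))
    have hred : ∀ n : ℕ, g ^ n = g ^ (n % p) := by
      intro n
      conv_lhs => rw [← Nat.div_add_mod n p, pow_add, pow_mul, he g hgA, one_pow, one_mul]
    have h4 : g ^ e 0 = g ^ e' 0 := by rw [hred (e 0), hred (e' 0), h3]
    rw [h4] at h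
    have h5 := ih hG' hI.2 (mul_left_cancel h)
    intro n hn
    cases n with
    | zero => exact h3
    | succ n => exact h5 n (by simpa using hn)

end Pool.Agent.SspConj
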