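import Pool.Agent.Lib.MP_a9d022_lc.Tree

/-! # From finite order to prime order -/

namespace Pool.Agent.SspConj

variable {G : Type} [Group G]

/-- the conjugates by elements of `H` -/
def cjs (H : Subgroup G) (a : G) : Set G := {x | ∃ h ∈ H, x = cj h a}

/-- the elements of `H` that commute with `b` -/
def stb (H : Subgroup G) (b : G) : Subgroup H := (Subgroup.centralizer ({b} : Set G)).subgroupOf H

theorem mem_stb {H : Subgroup G} {b : G} {h : H} : h ∈ stb H b ↔ cj (h : G) b = b := by
  unfold stb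
  rw [Subgroup.mem_subgroupOf, Subgroup.mem_centralizer_iff]
  constructor
  · intro h1
    have := h1 b (Set.mem_singleton b)
    unfold cj
    rw [← this, mul_assoc, mul_inv_cancel, mul_one]
  · intro h1 x hx
    rw [Set.mem_singleton_iff] at hx
    subst hx
    unfold cj at h1
    rw [mul_inv_eq_iff_eq_mul] at h1
    exact h1.symm

theorem stb_finite {H : Subgroup G} {b : G} (hb : (cjs H b).Finite) : Finite (H ⧸ stb H b) := by
  have : Finite (cjs H b) := hb
  refine Finite.of_injective (β := cjs H b)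
    (fun q => ⟨cj ((Quotient.out q : H) : G) b, _, (Quotient.out q : H).2, rfl⟩) ?_
  intro q q' h
  have h1 : cj ((Quotient.out q : H) : G) b = cj ((Quotient.out q' : H) : G) b :=
    congrArg Subtype.val h
  have h2 : (Quotient.out q : H)⁻¹ * (Quotient.out q' : H) ∈ stb H b := by
    rw [mem_stb, Subgroup.coe_mul, Subgroup.coe_inv, ← cj_cj, ← h1, cj_cj, inv_mul_cancel, one_cj]
  have h3 := QuotientGroup.eq.2 h2
  rw [QuotientGroup.out_eq', QuotientGroup.out_eq'] at h3
  exact h3

theorem cjs_stb {H : Subgroup G} {a b : G} (hb : (cjs H b).Finite)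
    (h : {x | ∃ h ∈ (stb H b).map H.subtype, x = cj h a}.Finite) : (cjs H a).Finite := by
  have := stb_finite hb
  refine (Set.finite_iUnion fun q : H ⧸ stb H b =>
    h.image (cj ((Quotient.out q : H) : G))).subset ?_
  rintro x ⟨g, hg, rfl⟩
  rw [Set.mem_iUnion]
  refine ⟨QuotientGroup.mk (⟨g, hg⟩ : H), ?_⟩
  obtain ⟨t, ht⟩ : ∃ t : H, t = Quotient.out (QuotientGroup.mk (⟨g, hg⟩ : H) : H ⧸ stb H b) :=
    ⟨_, rfl⟩
  rw [← ht]
  have h1 : (QuotientGroup.mk t : H ⧸ stb H b) = QuotientGroup.mk (⟨g, hg⟩ : H) := by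
    rw [ht]
    exact QuotientGroup.out_eq' _
  have h2 : t⁻¹ * ⟨g, hg⟩ ∈ stb H b := QuotientGroup.eq.1 h1
  refine ⟨cj ((t : G)⁻¹ * g) a, ⟨_, ⟨_, h2, rfl⟩, rfl⟩, ?_⟩
  rw [cj_cj, mul_inv_cancel_left]

theorem stb_fg {H : Subgroup G} (hH : H.FG) {b : G} (hb : (cjs H b).Finite) :
    ∃ T : Finset G, (∀ t ∈ T, t ∈ H ∧ cj t b = b) ∧
      Subgroup.closure (T : Set G) = (stb H b).map H.subtype := by
  have := stb_finite hb
  have h1 : (stb H b).FiniteIndex := Subgroup.finiteIndex_of_finite_quotient
  have h2 : Group.FG H := (Group.fg_iff_subgroup_fg H).2 hH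
  have h3 : Group.FG (stb H b) := Subgroup.fg_of_index_ne_zero _
  have h4 : (stb H b).FG := (Group.fg_iff_subgroup_fg _).1 h3
  obtain ⟨T, hT⟩ := h4
  classical
  refine ⟨T.image H.subtype, ?_, ?_⟩
  · intro t ht
    obtain ⟨s, hs, rfl⟩ := Finset.mem_image.1 ht
    refine ⟨s.2, mem_stb.1 ?_⟩
    rw [← hT]
    exact Subgroup.subset_closure hs
  · rw [Finset.coe_image, ← MonoidHom.map_closure, hT]

/-- an element of finite order with infinitely many commuting conjugates gives one of prime
order -/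
theorem exists_prime {H : Subgroup G} (hH : H.FG) : ∀ (m : ℕ), 0 < m → ∀ a : G, a ^ m = 1 →
    (∀ x ∈ orb H a, ∀ y ∈ orb H a, x * y = y * x) → (cjs H a).Infinite →
    ∃ (p : ℕ) (b : G), p.Prime ∧ b ^ p = 1 ∧ b ∈ orb H a ∧ (cjs H b).Infinite := by
  intro m
  induction m using Nat.strong_induction_on with
  | _ m ih =>
    intro hm a ham hc hinf
    by_cases hm1 : m = 1
    · exfalso
      apply hinf
      rw [hm1, pow_one] at ham
      refine (Set.finite_singleton (1 : G)).subset ?_
      rintro x ⟨h, -, rfl⟩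
      rw [ham, cj_one']
      exact Set.mem_singleton 1
    obtain ⟨p, hp, m', rfl⟩ := Nat.exists_prime_and_dvd hm1
    have hm' : 0 < m' := Nat.pos_of_mul_pos_left hm
    have hlt : m' < p * m' := by
      have := hp.two_le
      nlinarith
    have haA := self_mem_orb H a
    have hbA : a ^ p ∈ orb H a := pow_mem haA p
    have hsub : orb H (a ^ p) ≤ orb H a := by
      unfold orb
      rw [Subgroup.closure_le]
      rintro x ⟨h, hh, rfl⟩
      exact cj_mem_orb hh hbA
    by_cases hb : (cjs H (a ^ p)).Infinite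
    · obtain ⟨p', b', h1, h2, h3, h4⟩ := ih m' hlt hm' (a ^ p) (by rw [← pow_mul]; exact ham)
        (fun x hx y hy => hc x (hsub hx) y (hsub hy)) hb
      exact ⟨p', b', h1, h2, hsub h3, h4⟩
    · have hbf : (cjs H (a ^ p)).Finite := by
        by_contra h
        exact hb h
      obtain ⟨T, hT1, hT2⟩ := stb_fg hH hbf
      by_contra hcon
      push Not at hcon
      have hcA : ∀ t ∈ T, cj t a * a⁻¹ ∈ orb H a := fun t ht =>
        mul_mem (cj_mem_orb (hT1 t ht).1 haA) (inv_mem haA)
      have hcp : ∀ t ∈ T, (cj t a * a⁻¹) ^ p = 1 := by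
        intro t ht
        have hcomm : Commute (cj t a) a⁻¹ :=
          hc _ (cj_mem_orb (hT1 t ht).1 haA) _ (inv_mem haA)
        rw [hcomm.mul_pow, ← cj_pow, (hT1 t ht).2, inv_pow, mul_inv_cancel]
      have hfin : ∀ t ∈ T, (cjs H (cj t a * a⁻¹)).Finite := fun t ht =>
        hcon p _ hp (hcp t ht) (hcA t ht)
      -- the finite invariant subgroup
      have hEf : (⋃ t ∈ T, cjs H (cj t a * a⁻¹)).Finite :=
        Set.Finite.biUnion (Finset.finite_toSet T) hfin
      obtain ⟨E, hE⟩ : ∃ E : List G, ∀ x, x ∈ E ↔ x ∈ ⋃ t ∈ T, cjs H (cj t a * a⁻¹) := by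
        refine ⟨hEf.toFinset.toList, fun x => ?_⟩
        rw [Finset.mem_toList, Set.Finite.mem_toFinset]
      have hE' : ∀ x, x ∈ E ↔ ∃ t ∈ T, ∃ h ∈ H, x = cj h (cj t a * a⁻¹) := by
        intro x
        rw [hE]
        simp only [Set.mem_iUnion, exists_prop]
        rfl
      have hEA : ∀ x ∈ E, x ∈ orb H a := by
        intro x hx
        obtain ⟨t, ht, h, hh, rfl⟩ := (hE' x).1 hx
        exact cj_mem_orb hh (hcA t ht)
      have hclA : cl E ≤ orb H a := cl_le hEA
      have hclp : ∀ x ∈ cl E, x ^ p = 1 := by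
        intro x hx
        have hx' : x ∈ Subgroup.closure {x | x ∈ E} := hx
        induction hx' using Subgroup.closure_induction with
        | mem x hx1 =>
          obtain ⟨t, ht, h, hh, rfl⟩ := (hE' x).1 hx1
          rw [← cj_pow, hcp t ht, cj_one']
        | one => exact one_pow p
        | mul x y hx1 hy1 hx2 hy2 =>
          have hxy : Commute x y := hc x (hclA hx1) y (hclA hy1)
          rw [hxy.mul_pow, hx2 hx1, hy2 hy1, one_mul]
        | inv x hx1 hx2 => rw [inv_pow, hx2 hx1, inv_one]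
      have hclf := (cl_finite (A := cl E) hp.two_le
        (fun x hx y hy => hc x (hclA hx) y (hclA hy)) hclp (fun x hx => subset_cl E hx)).1
      have hinv : ∀ g ∈ H, ∀ x ∈ cl E, cj g x ∈ cl E := by
        intro g hg x hx
        have hx' : x ∈ Subgroup.closure {x | x ∈ E} := hx
        clear hx
        induction hx' using Subgroup.closure_induction with
        | mem x hx1 =>
          obtain ⟨t, ht, h, hh, rfl⟩ := (hE' x).1 hx1
          rw [cj_cj]
          exact subset_cl E ((hE' _).2 ⟨t, ht, g * h, mul_mem hg hh, rfl⟩)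
        | one => rw [cj_one']; exact one_mem _
        | mul x y _ _ hx hy => rw [cj_mul]; exact mul_mem hx hy
        | inv x _ hx => rw [cj_inv]; exact inv_mem hx
      have hall : ∀ g ∈ Subgroup.closure (T : Set G), g ∈ H ∧ cj g a * a⁻¹ ∈ cl E := by
        intro g hg
        induction hg using Subgroup.closure_induction with
        | mem t ht =>
          refine ⟨(hT1 t ht).1, subset_cl E ((hE' _).2 ⟨t, ht, 1, one_mem _, ?_⟩)⟩
          rw [one_cj]
        | one =>
          refine ⟨one_mem _, ?_⟩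
          rw [one_cj, mul_inv_cancel]
          exact one_mem _
        | mul g k _ _ hg hk =>
          refine ⟨mul_mem hg.1 hk.1, ?_⟩
          have h1 : cj (g * k) a * a⁻¹ = cj g (cj k a * a⁻¹) * (cj g a * a⁻¹) := by
            unfold cj; group
          rw [h1]
          exact mul_mem (hinv g hg.1 _ hk.2) hg.2
        | inv g _ hg =>
          refine ⟨inv_mem hg.1, ?_⟩
          have h1 : cj g⁻¹ a * a⁻¹ = (cj g⁻¹ (cj g a * a⁻¹))⁻¹ := by
            unfold cj; group
          rw [h1]
          exact inv_mem (hinv g⁻¹ (inv_mem hg.1) _ hg.2)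
      apply hinf
      apply cjs_stb hbf
      refine (hclf.image fun x => x * a).subset ?_
      rintro x ⟨g, hg, rfl⟩
      rw [← hT2] at hg
      exact ⟨_, (hall g hg).2, by group⟩

end Pool.Agent.SspConj
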