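import Pool.Agent.Lib.MP_a9d022_lc.Time
import Pool.Agent.Lib.MP_a9d022_lc.Tors
import Pool.Agent.Lib.MP_1ce42f_lc.OfTM2

/-! # The subset sum problem as a decision problem -/

open Turing N68a2faeb N487b59b3

namespace Pool.Agent.SspConj

open Pool.Agent.MSR Pool.Agent.MSR.En

open scoped Classical in
/-- The subset sum problem of the group `G` with generators `X 0, …, X (r - 1)`: the yes instances
are the encodings of the pairs (list of words, word) all letters of which have an index `< r` and
such that some sublist of the list of words has a product with the value of the last word. -/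
noncomputable def SSP {G : Type} [Group G] {r : ℕ} (X : Fin r → G) : DecisionProblem := fun x =>
  decide (∃ (ws : List Wd) (w : Wd), x = bitEncode (ws, w) ∧ (∀ v ∈ w :: ws, ∀ c ∈ v, c.1 < r) ∧
    Ssp X ws w)

variable {G : Type} [Group G] {r : ℕ}

/-- removing the letters with an index `≥ r` -/
def fil (r : ℕ) (w : Wd) : Wd := w.filter fun c => ltb c.1 r

theorem ev_fil (X : Fin r → G) (w : Wd) : ev X (fil r w) = ev X w := by
  unfold fil ev
  induction w with
  | nil => rfl
  | cons c w ih =>
    rw [List.filter_cons, List.map_cons, List.prod_cons]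
    by_cases h : c.1 < r
    · have h1 : ltb c.1 r = true := by simpa [ltb] using h
      rw [if_pos h1, List.map_cons, List.prod_cons, ih]
    · have h1 : ¬ ltb c.1 r = true := by simpa [ltb] using h
      have h2 : letter X c = 1 := by
        unfold letter
        rw [dif_neg h]
      rw [if_neg h1, ih, h2, one_mul]

theorem fil_lt {w : Wd} {c : ℕ × Bool} (h : c ∈ fil r w) : c.1 < r := by
  unfold fil at h
  have := (List.mem_filter.1 h).2
  simpa [ltb] using this

/-- the oracle -/
noncomputable def orcS (X : Fin r → G) (q : List Wd × Wd) : Bool :=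
  SSP X (bitEncode (q.1.map (fil r), fil r q.2))

theorem orcS_spec (X : Fin r → G) : Orc X (orcS X) := by
  classical
  intro ws w
  have hmap : ∀ u : List Wd, (u.map (fil r)).map (ev X) = u.map (ev X) := by
    intro u
    rw [List.map_map]
    apply List.map_congr_left
    intro v _
    exact ev_fil X v
  unfold orcS SSP
  rw [decide_eq_true_iff]
  constructor
  · rintro ⟨ws', w', he, -, h⟩
    have he' := bitEncode_injective he
    simp only [Prod.mk.injEq] at he'
    obtain ⟨rfl, rfl⟩ := he'
    rw [ssp_map, hmap, ev_fil] at h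
    exact ssp_map.2 h
  · intro h
    refine ⟨_, _, rfl, ?_, ?_⟩
    · intro v hv c hc
      rcases List.mem_cons.1 hv with rfl | hv
      · exact fil_lt hc
      · obtain ⟨v', -, rfl⟩ := List.mem_map.1 hv
        exact fil_lt hc
    · rw [ssp_map, hmap, ev_fil]
      exact ssp_map.1 h

/-- binary words as raw strings -/
def outW (v : Wd) : List (Raw × Bool) :=
  v.map fun c => ((⟨Computability.encodeNat c.1⟩ : Raw), c.2)

theorem enc_outW (v : Wd) : enc (outW v) = bitEncode v := by
  show ((List.map enc (v.map _)).map delimit).flatten = ((v.map bitEncode).map delimit).flatten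
  congr 2
  rw [List.map_map]
  apply List.map_congr_left
  intro c _
  obtain ⟨n, b⟩ := c
  show enc (((⟨Computability.encodeNat n⟩ : Raw), b) : Raw × Bool) = _
  rw [enc_pair]
  rfl

theorem enc_out (q : List Wd × Wd) : enc (q.1.map outW, outW q.2) = bitEncode q := by
  obtain ⟨ws, w⟩ := q
  have h1 : bitEncode (ws, w) = delimit (bitEncode ws) ++ bitEncode w := rfl
  rw [enc_pair, h1, enc_outW]
  congr 2
  show ((List.map enc (ws.map outW)).map delimit).flatten =
    ((ws.map bitEncode).map delimit).flatten
  congr 2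
  rw [List.map_map]
  apply List.map_congr_left
  intro v _
  exact enc_outW v

theorem PT_outW {α : Type} [En α] {v : α → Wd} (hv : PT v) : PT (fun a => outW (v a)) := by
  unfold outW
  apply PT.map hv
  exact PT.pair (PT.toRaw (PT.encodeNat (PT.fst (PT.snd PT.id')))) (PT.snd (PT.snd PT.id'))

theorem PT_of_isPolyTime {f : List Bool → Bool} (hf : IsPolyTime f) : PT f := by
  have h1 := (OfTM2.isPolyTime_iff_CT f).1 hf
  exact h1.congr (fun a => (encode_listBool a).symm) (fun _ => rfl)

theorem isPolyTime_of_PTb {f : List Bool → Bool} (hf : PT f) : IsPolyTime f := by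
  have h1 : CT (fun a : List Bool => bitEncode a) (fun a => bitEncode (f a)) :=
    CT.congr hf (fun a => encode_listBool a) (fun _ => rfl)
  exact (OfTM2.isPolyTime_iff_CT f).2 h1

theorem PT_orcS {X : Fin r → G} (hP : SSP X ∈ P) : PT (orcS X) := by
  have h1 : PT (SSP X) := PT_of_isPolyTime hP
  have h2 : PT (fun q : List Wd × Wd => (enc ((q.1.map (fil r)).map outW, outW (fil r q.2)) :
      List Bool)) := by
    apply PT.encString
    have h3 : ∀ {α : Type} [En α] {v : α → Wd}, PT v → PT (fun a => fil r (v a)) := by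
      intro α _ v hv
      unfold fil
      apply PT.filter hv
      exact PT.ltb (PT.fst (PT.snd PT.id')) (PT.const r)
    refine PT.pair ?_ (PT_outW (h3 (PT.snd PT.id')))
    apply PT.map
    · apply PT.map (PT.fst PT.id')
      exact h3 (PT.snd PT.id')
    · exact PT_outW (PT.snd PT.id')
  refine (h1.comp h2).of_eq fun q => ?_
  unfold orcS
  have h3 := enc_out (q.1.map (fil r), fil r q.2)
  simp only at h3
  rw [h3]

/-- the main theorem -/
theorem collapse (X : Fin r → G) (hX : Subgroup.closure (Set.range X) = ⊤) {H : Subgroup G}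
    (hH : H.FG) {a : G} (ha : IsOfFinOrder a)
    (hcomm : ∀ h ∈ H, ∀ k ∈ H, Commute (h * a * h⁻¹) (k * a * k⁻¹))
    (hinf : {x | ∃ h ∈ H, x = h * a * h⁻¹}.Infinite) (hP : SSP X ∈ P) : NP ⊆ P := by
  have hc := orb_comm (H := H) (a := a) fun h hh k hk => hcomm h hh k hk
  obtain ⟨m, hm, ham⟩ := isOfFinOrder_iff_pow_eq_one.1 ha
  obtain ⟨p, b, hp, hbp, hb, hbinf⟩ := exists_prime hH m hm a ham hc hinf
  obtain ⟨w, hw⟩ := exists_word X hX b
  obtain ⟨T, hT⟩ := hH
  obtain ⟨Y, hY⟩ : ∃ Y : List Wd, ∀ y, y ∈ Y.map (ev X) ↔ y ∈ T := by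
    choose f hf using exists_word X hX
    refine ⟨T.toList.map f, fun y => ?_⟩
    rw [List.map_map]
    have : (ev X ∘ f) = id := funext hf
    rw [this, List.map_id, Finset.mem_toList]
  have hYH : Subgroup.closure {y | y ∈ Y.map (ev X)} = H := by
    rw [← hT]
    congr 1
    ext y
    exact hY y
  intro L hL
  obtain ⟨N, Hx, hN, hHx, hLx⟩ := np_nae L hL
  have h1 : PT (fun x => solve (orcS X) p Y w (N x) (Hx x)) :=
    PT_solve (PT_orcS hP) p Y w hN hHx
  have h2 : L = fun x => solve (orcS X) p Y w (N x) (Hx x) := by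
    funext x
    obtain ⟨g1, -, g3, -⟩ := hLx x
    rw [Bool.eq_iff_iff, g1]
    refine (solve_iff (orcS_spec X) hp hYH ?_ (by rw [hw]; exact hbp) ?_
      (fun e he v hv => (g3 e he).2 v hv)).symm
    · intro h hh k hk
      rw [hw]
      exact hc _ (cj_mem_orb hh hb) _ (cj_mem_orb hk hb)
    · rw [hw]
      exact hbinf
  show IsPolyTime L
  rw [h2]
  exact isPolyTime_of_PTb h1

end Pool.Agent.SspConj
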