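import Pool.Agent.Lib.MP_a9d022_lc.Choice

/-! # Soundness of the choice problem -/

namespace Pool.Agent.SspConj

open Pool.Agent.MSR (NAE)

theorem forall₂_split {α β : Type} {R : α → β → Prop} : ∀ {a b : List α} {s : List β},
    List.Forall₂ R (a ++ b) s → ∃ s1 s2, s = s1 ++ s2 ∧ List.Forall₂ R a s1 ∧
      List.Forall₂ R b s2 := by
  intro a
  induction a with
  | nil => intro b s h; exact ⟨[], s, rfl, List.Forall₂.nil, h⟩
  | cons x a ih =>
    intro b s h
    cases h with
    | cons hx h =>
      obtain ⟨s1, s2, rfl, h1, h2⟩ := ih h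
      exact ⟨_ :: s1, s2, rfl, List.Forall₂.cons hx h1, h2⟩

theorem mem_crng {i k n : ℕ} : n ∈ crng i k ↔ ∃ j ≤ k, n = i + j := by
  unfold crng
  rw [List.mem_map]
  constructor
  · rintro ⟨j, hj, rfl⟩
    exact ⟨j, by have := List.mem_range.1 hj; omega, rfl⟩
  · rintro ⟨j, hj, rfl⟩
    exact ⟨j, List.mem_range.2 (by omega), rfl⟩

theorem crng_nodup (i k : ℕ) : (crng i k).Nodup := by
  unfold crng
  exact List.nodup_range.map fun a b h => by simpa using h

theorem crng_length (i k : ℕ) : (crng i k).length = k + 1 := by simp [crng]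

theorem cblk_sel {i k : ℕ} {s : List (List ℕ)} (h : Sel (cblk i k) s) :
    s.flatten.length ≤ k ∧ ∀ n ∈ s.flatten, n ∈ crng i k := by
  have key : ∀ (l : List ℕ) (s : List (List ℕ)), (∀ j ∈ l, j < k) →
      Sel (l.map fun j => ([i + j], [i + (j + 1)])) s →
      s.flatten.length ≤ l.length ∧ ∀ n ∈ s.flatten, n ∈ crng i k := by
    intro l
    induction l with
    | nil =>
      intro s _ h
      cases h
      simp
    | cons j l ih =>
      intro s hl h
      cases h with
      | @cons _ x _ s' hx h =>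
        obtain ⟨h1, h2⟩ := ih s' (fun j' hj' => hl j' (List.mem_cons_of_mem _ hj')) h
        have hj := hl j List.mem_cons_self
        rw [List.flatten_cons, List.length_append, List.length_cons]
        have hx' : x.length ≤ 1 ∧ ∀ n ∈ x, n ∈ crng i k := by
          rcases hx with rfl | rfl | rfl
          · simp
          · refine ⟨by simp, fun n hn => ?_⟩
            rw [List.mem_singleton] at hn
            exact mem_crng.2 ⟨j, by omega, hn⟩
          · refine ⟨by simp, fun n hn => ?_⟩
            rw [List.mem_singleton] at hn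
            exact mem_crng.2 ⟨j + 1, by omega, hn⟩
        refine ⟨by omega, fun n hn => ?_⟩
        rcases List.mem_append.1 hn with hn | hn
        · exact hx'.2 n hn
        · exact h2 n hn
  have := key (List.range k) s (fun j hj => List.mem_range.1 hj) h
  rwa [List.length_range] at this

/-- the index lists are fine -/
def OK (K : ℕ) (Z : List ((Bool × List ℕ) × ℕ)) : Prop :=
  (Z.map Prod.snd).Nodup ∧ ∀ z ∈ Z, z.1.2.length < K

theorem OK.tail {K : ℕ} {z : (Bool × List ℕ) × ℕ} {Z : List ((Bool × List ℕ) × ℕ)}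
    (h : OK K (z :: Z)) : OK K Z := by
  obtain ⟨h1, h2⟩ := h
  rw [List.map_cons, List.nodup_cons] at h1
  exact ⟨h1.2, fun z' hz' => h2 z' (List.mem_cons_of_mem _ hz')⟩

theorem OK.eq {K : ℕ} {Z : List ((Bool × List ℕ) × ℕ)} (h : OK K Z)
    {z z' : (Bool × List ℕ) × ℕ} (hz : z ∈ Z) (hz' : z' ∈ Z) (he : z.2 = z'.2) : z = z' :=
  List.inj_on_of_nodup_map h.1 hz hz' he

theorem idx_eq {K i i' j j' : ℕ} (hj : j < K) (hj' : j' < K) (h : i * K + j = i' * K + j') :
    i = i' := by
  have h1 : (i * K + j) / K = i := by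
    rw [Nat.mul_comm, Nat.mul_add_div (by omega), Nat.div_eq_of_lt hj, add_zero]
  have h2 : (i' * K + j') / K = i' := by
    rw [Nat.mul_comm, Nat.mul_add_div (by omega), Nat.div_eq_of_lt hj', add_zero]
  rw [← h1, h, h2]

theorem cblks_sel {K : ℕ} : ∀ {Z : List ((Bool × List ℕ) × ℕ)} {s : List (List ℕ)}, OK K Z →
    Sel (cblks K Z) s →
    (∀ z0 ∈ Z, (s.flatten.filter fun n => decide (n ∈ crng (z0.2 * K) z0.1.2.length)).length ≤
      z0.1.2.length) ∧ ∀ n ∈ s.flatten, ∃ z ∈ Z, n ∈ crng (z.2 * K) z.1.2.length := by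
  intro Z
  induction Z with
  | nil =>
    intro s _ h
    cases h
    simp
  | cons z Z ih =>
    intro s hOK h
    obtain ⟨s1, s2, rfl, h1, h2⟩ := forall₂_split (a := cblk (z.2 * K) z.1.2.length) h
    obtain ⟨ih1, ih2⟩ := ih hOK.tail h2
    obtain ⟨l1, m1⟩ := cblk_sel h1
    have hnd := hOK.1
    rw [List.map_cons, List.nodup_cons] at hnd
    constructor
    · intro z0 hz0
      rw [List.flatten_append, List.filter_append, List.length_append]
      rcases List.mem_cons.1 hz0 with rfl | hz0'
      · have h3 : s2.flatten.filter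
            (fun n => decide (n ∈ crng (z0.2 * K) z0.1.2.length)) = [] := by
          rw [List.filter_eq_nil_iff]
          intro n hn hd
          obtain ⟨z', hz', hn'⟩ := ih2 n hn
          obtain ⟨j, hj, e1⟩ := mem_crng.1 (of_decide_eq_true hd)
          obtain ⟨j', hj', e2⟩ := mem_crng.1 hn'
          have h4 := hOK.2 _ hz0
          have h5 := hOK.2 _ (List.mem_cons_of_mem _ hz')
          have h6 := idx_eq (by omega) (by omega) (e1.symm.trans e2)
          exact hnd.1 (h6 ▸ List.mem_map_of_mem hz')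
        rw [h3, List.length_nil, add_zero]
        exact (List.length_filter_le _ _).trans l1
      · have h3 : s1.flatten.filter
            (fun n => decide (n ∈ crng (z0.2 * K) z0.1.2.length)) = [] := by
          rw [List.filter_eq_nil_iff]
          intro n hn hd
          obtain ⟨j, hj, e1⟩ := mem_crng.1 (of_decide_eq_true hd)
          obtain ⟨j', hj', e2⟩ := mem_crng.1 (m1 n hn)
          have h4 := hOK.2 _ hz0
          have h5 := hOK.2 _ (List.mem_cons_self (a := z) (l := Z))
          have h6 := idx_eq (by omega) (by omega) (e2.symm.trans e1)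
          exact hnd.1 (h6 ▸ List.mem_map_of_mem hz0')
        rw [h3, List.length_nil, zero_add]
        exact ih1 z0 hz0'
    · intro n hn
      rw [List.flatten_append] at hn
      rcases List.mem_append.1 hn with hn | hn
      · exact ⟨z, List.mem_cons_self, m1 n hn⟩
      · obtain ⟨z', hz', h'⟩ := ih2 n hn
        exact ⟨z', List.mem_cons_of_mem _ hz', h'⟩

theorem targ_nodup {K : ℕ} : ∀ {Z : List ((Bool × List ℕ) × ℕ)}, OK K Z → (targ K Z).Nodup := by
  intro Z
  induction Z with
  | nil => intro _; simp [targ]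
  | cons z Z ih =>
    intro hOK
    have h1 : targ K (z :: Z) = crng (z.2 * K) z.1.2.length ++ targ K Z := rfl
    rw [h1, List.nodup_append']
    refine ⟨crng_nodup _ _, ih hOK.tail, ?_⟩
    intro n hn hn'
    unfold targ at hn'
    rw [List.mem_flatMap] at hn'
    obtain ⟨z', hz', hn'⟩ := hn'
    obtain ⟨j, hj, e1⟩ := mem_crng.1 hn
    obtain ⟨j', hj', e2⟩ := mem_crng.1 hn'
    have h4 := hOK.2 _ (List.mem_cons_self (a := z) (l := Z))
    have h5 := hOK.2 _ (List.mem_cons_of_mem _ hz')
    have h6 := idx_eq (by omega) (by omega) (e1.symm.trans e2)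
    have hnd := hOK.1
    rw [List.map_cons, List.nodup_cons] at hnd
    exact hnd.1 (h6 ▸ List.mem_map_of_mem hz')

theorem OK_clauses (H : List (List ℕ)) : OK (width H) (clauses H).zipIdx := by
  constructor
  · rw [List.zipIdx_map_snd]
    exact List.nodup_range'
  · intro z hz
    have h1 := mem_clauses (zipIdx_fst hz)
    unfold width
    have h2 : z.1.2.length ≤ (H.map List.length).sum :=
      List.le_sum_of_mem (List.mem_map_of_mem h1)
    omega

theorem mem_vopt {K : ℕ} {Z : List ((Bool × List ℕ) × ℕ)} {b : Bool} {v n : ℕ}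
    (h : n ∈ vopt K Z b v) : ∃ z ∈ Z, z.1.1 = b ∧ v ∈ z.1.2 ∧ n ∈ crng (z.2 * K) z.1.2.length := by
  unfold vopt at h
  rw [List.mem_map] at h
  obtain ⟨o, ho, rfl⟩ := h
  rw [List.mem_filter] at ho
  obtain ⟨ho, hb⟩ := ho
  unfold occ at ho
  rw [List.mem_flatMap] at ho
  obtain ⟨z, hz, ho⟩ := ho
  rw [List.mem_map] at ho
  obtain ⟨w, hw, rfl⟩ := ho
  simp only [Bool.and_eq_true, beq_iff_eq] at hb
  refine ⟨z, hz, hb.1, ?_, ?_⟩
  · rw [← hb.2]
    exact zipIdx_fst hw
  · have h2 : w.2 < z.1.2.length := by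
      have := List.snd_lt_of_mem_zipIdx hw
      simpa using this
    exact mem_crng.2 ⟨w.2 + 1, by omega, rfl⟩

/-- soundness -/
theorem sound {p : ℕ} (hp : 2 ≤ p) {H : List (List ℕ)} {N : ℕ} {sel : List (List ℕ)}
    (hsel : Sel (blks N H) sel)
    (hcount : ∀ n ∈ targH H, sel.flatten.count n ≡ (targH H).count n [MOD p]) : NAE H := by
  obtain ⟨K, hK⟩ : ∃ K, K = width H := ⟨_, rfl⟩
  obtain ⟨Z, hZ⟩ : ∃ Z, Z = (clauses H).zipIdx := ⟨_, rfl⟩
  have hOK : OK K Z := by rw [hK, hZ]; exact OK_clauses H
  unfold blks at hsel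
  unfold targH at hcount
  rw [← hK, ← hZ] at hsel hcount
  obtain ⟨s1, s2, rfl, h1, h2⟩ := forall₂_split hsel
  obtain ⟨c1, _⟩ := cblks_sel hOK h2
  -- the assignment
  obtain ⟨f, hf⟩ : ∃ f : ℕ → Bool, f = fun v =>
      decide (s1.getD v [] ≠ [] ∧ s1.getD v [] = vopt K Z true v) := ⟨_, rfl⟩
  have hgood : ∀ z0 ∈ Z, ∃ v ∈ z0.1.2, f v = z0.1.1 := by
    intro z0 hz0
    by_contra hno
    push Not at hno
    have hvar : ∀ n ∈ s1.flatten, n ∉ crng (z0.2 * K) z0.1.2.length := by
      intro n hn hn0
      rw [List.mem_flatten] at hn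
      obtain ⟨x, hx, hnx⟩ := hn
      obtain ⟨v, hv, hvx⟩ := List.getElem_of_mem hx
      have hlen := h1.length_eq
      rw [List.length_map, List.length_range] at hlen
      have hR := List.Forall₂.get h1 (i := v) (by simpa using hlen ▸ hv) hv
      simp only [List.get_eq_getElem, List.getElem_map, List.getElem_range] at hR
      rw [hvx] at hR
      have hgd : s1.getD v [] = x := by rw [List.getD_eq_getElem _ _ hv, hvx]
      have hxne : x ≠ [] := by rintro rfl; simp at hnx
      have hfv : f v = decide (x ≠ [] ∧ x = vopt K Z true v) := by rw [hf]; simp only [hgd]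
      by_cases hxt : x = vopt K Z true v
      · have hft : f v = true := by rw [hfv]; simpa using ⟨hxne, hxt⟩
        rw [hxt] at hnx
        obtain ⟨z, hz, hb, hvz, hnz⟩ := mem_vopt hnx
        obtain ⟨j, hj, e1⟩ := mem_crng.1 hnz
        obtain ⟨j', hj', e2⟩ := mem_crng.1 hn0
        have h4 := hOK.2 _ hz
        have h5 := hOK.2 _ hz0
        have h6 := hOK.eq hz hz0 (idx_eq (by omega) (by omega) (e1.symm.trans e2))
        subst h6
        exact hno v hvz (by rw [hft, hb])
      · have hff : f v = false := by rw [hfv]; simp [hxt]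
        rcases hR with hR | hR | hR
        · exact hxne hR
        · exact hxt hR
        · rw [hR] at hnx
          obtain ⟨z, hz, hb, hvz, hnz⟩ := mem_vopt hnx
          obtain ⟨j, hj, e1⟩ := mem_crng.1 hnz
          obtain ⟨j', hj', e2⟩ := mem_crng.1 hn0
          have h4 := hOK.2 _ hz
          have h5 := hOK.2 _ hz0
          have h6 := hOK.eq hz hz0 (idx_eq (by omega) (by omega) (e1.symm.trans e2))
          subst h6
          exact hno v hvz (by rw [hff, hb])
    have hsub : crng (z0.2 * K) z0.1.2.length ⊆ (s1 ++ s2).flatten.filter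
        fun n => decide (n ∈ crng (z0.2 * K) z0.1.2.length) := by
      intro n hn
      rw [List.mem_filter]
      refine ⟨?_, decide_eq_true hn⟩
      have hnt : n ∈ targ K Z := List.mem_flatMap.2 ⟨z0, hz0, hn⟩
      have h7 := hcount n hnt
      rw [List.count_eq_one_of_mem (targ_nodup hOK) hnt] at h7
      by_contra hno'
      rw [List.count_eq_zero_of_not_mem hno'] at h7
      have h8 := (Nat.modEq_iff_dvd' (by norm_num)).1 h7
      have h9 := Nat.le_of_dvd (by norm_num) h8
      omega
    have h10 := (List.subperm_of_subset (crng_nodup _ _) hsub).length_le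
    rw [crng_length, List.flatten_append, List.filter_append, List.length_append] at h10
    have h11 : s1.flatten.filter (fun n => decide (n ∈ crng (z0.2 * K) z0.1.2.length)) = [] := by
      rw [List.filter_eq_nil_iff]
      intro n hn hd
      exact hvar n hn (of_decide_eq_true hd)
    rw [h11, List.length_nil] at h10
    have h12 := c1 z0 hz0
    omega
  have hcl : ∀ c ∈ clauses H, ∃ v ∈ c.2, f v = c.1 := by
    intro c hc
    obtain ⟨i, hi, hic⟩ := List.getElem_of_mem hc
    have : (c, i) ∈ Z := by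
      rw [hZ]
      rw [List.mem_zipIdx_iff_getElem?]
      simp [List.getElem?_eq_getElem hi, hic]
    exact hgood _ this
  refine ⟨f, fun e he => ?_⟩
  obtain ⟨a, ha, hfa⟩ := hcl (true, e) (List.mem_flatMap.2 ⟨e, he, by simp⟩)
  obtain ⟨b, hb, hfb⟩ := hcl (false, e) (List.mem_flatMap.2 ⟨e, he, by simp⟩)
  exact ⟨a, ha, b, hb, by rw [hfa, hfb]; simp⟩

end Pool.Agent.SspConj
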