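import Pool.Agent.Lib.MP_a9d022_lc.Alg
import Pool.Agent.Lib.MP_a9d022_lc.Sound

/-! # The instances of the subset sum problem, and the decision procedure -/

namespace Pool.Agent.SspConj

open Pool.Agent.MSR (NAE)

variable {G : Type} [Group G] {r : ℕ}

/-- the product of general coordinates -/
def optW (G0 : List Wd) (l : List ℕ) : Wd := l.flatMap fun i => G0.getD i []

/-- the five words of a block -/
def blkW (q : Wd) (G0 C : List Wd) (z : (List ℕ × List ℕ) × ℕ) : List Wd :=
  [winv (C.getD (2 * z.2) [] ++ wcj q (C.getD (2 * z.2) [])), winv (C.getD (2 * z.2 + 1) []),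
    optW G0 z.1.1 ++ C.getD (2 * z.2) [] ++ q, optW G0 z.1.2 ++ C.getD (2 * z.2 + 1) [],
    C.getD (2 * z.2) [] ++ winv q]

/-- the instance of the subset sum problem -/
def inst (q : Wd) (G0 C : List Wd) (bl : List (List ℕ × List ℕ)) (tg : List ℕ) : List Wd × Wd :=
  (bl.zipIdx.flatMap fun z => blkW q G0 C z, optW G0 tg)

variable {X : Fin r → G} {S : List Wd × Wd → Bool} {p : ℕ} {A : Subgroup G}

/-- product of entries -/
def val (Gam : List G) (l : List ℕ) : G := (l.map fun i => Gam.getD i 1).prod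

theorem ev_optW (G0 : List Wd) (l : List ℕ) : ev X (optW G0 l) = val (G0.map (ev X)) l := by
  unfold optW val
  rw [ev_flatMap]
  congr 1
  apply List.map_congr_left
  intro i _
  rw [← ev_nil X, List.getD_map]

theorem val_append (Gam : List G) (l m : List ℕ) : val Gam (l ++ m) = val Gam l * val Gam m := by
  unfold val
  rw [List.map_append, List.prod_append]

theorem val_flatten (Gam : List G) (s : List (List ℕ)) :
    (s.map (val Gam)).prod = val Gam s.flatten := by
  induction s with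
  | nil => rfl
  | cons a s ih => rw [List.map_cons, List.prod_cons, ih, List.flatten_cons, val_append]

/-- the blocks -/
def blksG (X : Fin r → G) (G0 C : List Wd) (bl : List (List ℕ × List ℕ)) : List (Blk G) :=
  bl.zipIdx.map fun z => ⟨ev X (optW G0 z.1.1), ev X (optW G0 z.1.2), ev X (C.getD (2 * z.2) []),
    ev X (C.getD (2 * z.2 + 1) [])⟩

theorem blksG_items (q : Wd) (G0 C : List Wd) (bl : List (List ℕ × List ℕ)) :
    itemsL (ev X q) (blksG X G0 C bl) = ((bl.zipIdx.flatMap fun z => blkW q G0 C z)).map (ev X) := by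
  unfold itemsL blksG
  rw [List.flatMap_map, List.map_flatMap]
  congr 1
  funext z
  unfold Blk.items blkW
  simp only [List.map_cons, List.map_nil, ev_winv, ev_append, ev_wcj]

theorem pairs_eq {α : Type} (d : α) : ∀ (m : ℕ) (C : List α), C.length = 2 * m →
    ((List.range m).flatMap fun k => [C.getD (2 * k) d, C.getD (2 * k + 1) d]) = C := by
  intro m
  induction m with
  | zero => intro C hC; simpa using (List.length_eq_zero_iff.1 hC).symm
  | succ m ih =>
    intro C hC
    match C, hC with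
    | x :: y :: C', hC =>
      have h1 : C'.length = 2 * m := by simp only [List.length_cons] at hC; omega
      rw [List.range_succ_eq_map, List.flatMap_cons, List.flatMap_map]
      have h2 := ih C' h1
      have h3 : (fun k => [(x :: y :: C').getD (2 * Nat.succ k) d,
          (x :: y :: C').getD (2 * Nat.succ k + 1) d]) =
          fun k => [C'.getD (2 * k) d, C'.getD (2 * k + 1) d] := by
        funext k
        have e1 : 2 * Nat.succ k = 2 * k + 1 + 1 := by omega
        rw [e1]
        rfl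
      rw [h3, h2]
      rfl

theorem blksG_crd {G0 C : List Wd} {bl : List (List ℕ × List ℕ)} (h : C.length = 2 * bl.length) :
    crd (blksG X G0 C bl) = C.map (ev X) := by
  unfold crd blksG
  rw [List.flatMap_map]
  have h1 : (bl.zipIdx.flatMap fun z => [ev X (C.getD (2 * z.2) []),
      ev X (C.getD (2 * z.2 + 1) [])]) =
      ((bl.zipIdx.map Prod.snd).flatMap fun k => [C.getD (2 * k) [], C.getD (2 * k + 1) []]).map
        (ev X) := by
    rw [List.flatMap_map, List.map_flatMap]
    rfl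
  refine Eq.trans h1 ?_
  rw [List.zipIdx_map_snd, ← List.range_eq_range', pairs_eq [] _ C h]

theorem blksG_length (X : Fin r → G) (G0 C : List Wd) (bl : List (List ℕ × List ℕ)) :
    (blksG X G0 C bl).length = bl.length := by
  unfold blksG
  rw [List.length_map, List.length_zipIdx]

theorem blksG_forall {G0 C : List Wd} {bl : List (List ℕ × List ℕ)} {sel : List G} :
    List.Forall₂ (fun (t : Blk G) x => x = 1 ∨ x = t.u ∨ x = t.b) (blksG X G0 C bl) sel ↔
      List.Forall₂ (fun (B : List ℕ × List ℕ) x => x = 1 ∨ x = val (G0.map (ev X)) B.1 ∨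
        x = val (G0.map (ev X)) B.2) bl sel := by
  unfold blksG
  rw [List.forall₂_map_left_iff]
  simp only [ev_optW]
  conv_rhs => rw [← List.zipIdx_map_fst 0 bl]
  rw [List.forall₂_map_left_iff]

theorem forall_sel {Gam : List G} : ∀ {bl : List (List ℕ × List ℕ)} {sel : List G},
    List.Forall₂ (fun (B : List ℕ × List ℕ) x => x = 1 ∨ x = val Gam B.1 ∨ x = val Gam B.2)
      bl sel → ∃ s, Sel bl s ∧ sel = s.map (val Gam) := by
  intro bl
  induction bl with
  | nil =>
    intro sel h
    cases h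
    exact ⟨[], List.Forall₂.nil, rfl⟩
  | cons B bl ih =>
    intro sel h
    cases h with
    | @cons _ x _ sel' hx h' =>
      obtain ⟨s, hs, rfl⟩ := ih h'
      rcases hx with rfl | rfl | rfl
      · exact ⟨[] :: s, List.Forall₂.cons (Or.inl rfl) hs, rfl⟩
      · exact ⟨B.1 :: s, List.Forall₂.cons (Or.inr (Or.inl rfl)) hs, rfl⟩
      · exact ⟨B.2 :: s, List.Forall₂.cons (Or.inr (Or.inr rfl)) hs, rfl⟩

theorem sel_forall {Gam : List G} {bl : List (List ℕ × List ℕ)} {s : List (List ℕ)}
    (h : Sel bl s) :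
    List.Forall₂ (fun (B : List ℕ × List ℕ) x => x = 1 ∨ x = val Gam B.1 ∨ x = val Gam B.2)
      bl (s.map (val Gam)) := by
  rw [List.forall₂_map_right_iff]
  refine h.imp ?_
  rintro B t (rfl | rfl | rfl)
  · exact Or.inl rfl
  · exact Or.inr (Or.inl rfl)
  · exact Or.inr (Or.inr rfl)

theorem val_mem {Gam : List G} (l : List ℕ) : val Gam l ∈ cl Gam := by
  unfold val
  apply Subgroup.list_prod_mem
  intro x hx
  obtain ⟨i, -, rfl⟩ := List.mem_map.1 hx
  by_cases h : i < Gam.length
  · rw [List.getD_eq_getElem _ _ h]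
    exact subset_cl _ (List.getElem_mem h)
  · rw [List.getD_eq_default _ _ (by omega)]
    exact one_mem _

theorem inst_sound (hS : Orc X S) (hp : p.Prime) (hc : ∀ x ∈ A, ∀ y ∈ A, x * y = y * x)
    (he : ∀ x ∈ A, x ^ p = 1) {q : Wd} (hq : ∀ x ∈ A, ∀ s : ℤ, cj (ev X q ^ s) x ∈ A)
    {G0 C : List Wd} (hG : ∀ x ∈ G0, ev X x ∈ A) (hC : ∀ x ∈ C, ev X x ∈ A)
    {bl : List (List ℕ × List ℕ)} (hlen : C.length = 2 * bl.length) {n : ℕ} (hn : bl.length ≤ n)
    (hgood : Good p (ev X q) n (G0.map (ev X)) (C.map (ev X))) (hI : Ind (G0.map (ev X)))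
    {tg : List ℕ} (h : S (inst q G0 C bl tg) = true) :
    ∃ s, Sel bl s ∧ ∀ i < G0.length, s.flatten.count i ≡ tg.count i [MOD p] := by
  have h1 : Ssp X (bl.zipIdx.flatMap fun z => blkW q G0 C z) (optW G0 tg) := (hS _ _).1 h
  obtain ⟨u, hu, hup⟩ := ssp_map.1 h1
  rw [← blksG_items] at hu
  have hGA : ∀ x ∈ G0.map (ev X), x ∈ A := by
    intro x hx
    obtain ⟨y, hy, rfl⟩ := List.mem_map.1 hx
    exact hG y hy
  obtain ⟨sel, hsel, hsp⟩ := peel (A := A) hp.two_le hc hq hGA (n := n)
    (T := blksG X G0 C bl) (by rw [blksG_length]; exact hn) (by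
      intro t ht
      unfold blksG at ht
      obtain ⟨z, -, rfl⟩ := List.mem_map.1 ht
      simp only [ev_optW]
      exact ⟨val_mem _, val_mem _⟩) (by
      intro x hx
      rw [blksG_crd hlen] at hx
      obtain ⟨y, hy, rfl⟩ := List.mem_map.1 hx
      exact hC y hy) (by rw [blksG_crd hlen]; exact hgood)
    (g := ev X (optW G0 tg)) (by rw [ev_optW]; exact val_mem _) hu hup
  rw [blksG_forall] at hsel
  obtain ⟨s, hs, rfl⟩ := forall_sel hsel
  refine ⟨s, hs, ?_⟩
  rw [val_flatten, ev_optW] at hsp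
  unfold val at hsp
  rw [pw_count hc hGA, pw_count hc hGA] at hsp
  have := pw_inj hp he hGA hI hsp
  intro i hi
  exact this i (by rwa [List.length_map])

theorem inst_complete (hS : Orc X S) (hc : ∀ x ∈ A, ∀ y ∈ A, x * y = y * x)
    {q : Wd} (hq : ∀ x ∈ A, ∀ s : ℤ, cj (ev X q ^ s) x ∈ A)
    {G0 C : List Wd} (hG : ∀ x ∈ G0, ev X x ∈ A) (hC : ∀ x ∈ C, ev X x ∈ A)
    {bl : List (List ℕ × List ℕ)} (hlen : C.length = 2 * bl.length)
    {tg : List ℕ} {s : List (List ℕ)} (hs : Sel bl s) (hperm : s.flatten.Perm tg) :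
    S (inst q G0 C bl tg) = true := by
  have hGA : ∀ x ∈ G0.map (ev X), x ∈ A := by
    intro x hx
    obtain ⟨y, hy, rfl⟩ := List.mem_map.1 hx
    exact hG y hy
  have hcl : cl (G0.map (ev X)) ≤ A := cl_le hGA
  have h1 := sel_forall (Gam := G0.map (ev X)) hs
  rw [← blksG_forall (C := C)] at h1
  have hTA : ∀ t ∈ blksG X G0 C bl, t.u ∈ A ∧ t.b ∈ A ∧ t.r ∈ A ∧ t.s ∈ A := by
    intro t ht
    have ht' := ht
    unfold blksG at ht
    obtain ⟨z, hz, rfl⟩ := List.mem_map.1 ht
    have hcr : ∀ x ∈ crd (blksG X G0 C bl), x ∈ A := by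
      intro x hx
      rw [blksG_crd hlen] at hx
      obtain ⟨y, hy, rfl⟩ := List.mem_map.1 hx
      exact hC y hy
    refine ⟨?_, ?_, ?_, ?_⟩
    · simp only [ev_optW]
      exact hcl (val_mem _)
    · simp only [ev_optW]
      exact hcl (val_mem _)
    · exact hcr _ (List.mem_flatMap.2 ⟨_, ht', by simp⟩)
    · exact hcr _ (List.mem_flatMap.2 ⟨_, ht', by simp⟩)
  obtain ⟨u, hu, hup⟩ := conv hc hq hTA h1
  rw [blksG_items] at hu
  have h2 : Ssp X (bl.zipIdx.flatMap fun z => blkW q G0 C z) (optW G0 tg) := by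
    rw [ssp_map]
    refine ⟨u, hu, ?_⟩
    rw [hup, val_flatten, ev_optW]
    unfold val
    rw [pw_count hc hGA, pw_count hc hGA]
    apply pw_congr
    intro n _
    exact hperm.count_eq n
  exact (hS _ _).2 h2

theorem Ind.take {B : List G} (h : Ind B) (k : ℕ) : Ind (B.take k) := by
  induction B generalizing k with
  | nil => rw [List.take_nil]; trivial
  | cons v B ih =>
    cases k with
    | zero => trivial
    | succ k =>
      rw [List.take_succ_cons]
      exact ⟨fun hm => h.1 (cl_mono' (fun x hx => List.mem_of_mem_take hx) hm), ih h.2 k⟩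

/-- number of blocks -/
def nb (N : ℕ) (H : List (List ℕ)) : ℕ := (blks N H).length

/-- number of general coordinates -/
def nL (H : List (List ℕ)) : ℕ := (clauses H).length * width H

/-- number of steps of the search -/
def nD (p l : ℕ) (N : ℕ) (H : List (List ℕ)) : ℕ :=
  (p - 1) * (1 + l * (3 * ((2 * nb N H + 1) * (2 * nb N H + nL H)) + (2 * nb N H + 1))) + nL H + 1

/-- the conjugates found by the search -/
def fnd (S : List Wd × Wd → Bool) (p : ℕ) (Y : List Wd) (a : Wd) (N : ℕ) (H : List (List ℕ)) :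
    List Wd := (grow S p Y)^[nD p Y.length N H] [a]

/-- the coordinates for the generator `q` -/
def crq (S : List Wd × Wd → Bool) (p : ℕ) (Y : List Wd) (a : Wd) (N : ℕ) (H : List (List ℕ))
    (q : Wd) : List Wd :=
  pick S p (nb N H) q ((fnd S p Y a N H).take (nL H)) (2 * nb N H) (fnd S p Y a N H)

/-- the decision procedure -/
def solve (S : List Wd × Wd → Bool) (p : ℕ) (Y : List Wd) (a : Wd) (N : ℕ) (H : List (List ℕ)) :
    Bool :=
  Y.any fun q => (crq S p Y a N H q).length == 2 * nb N H &&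
    S (inst q ((fnd S p Y a N H).take (nL H)) (crq S p Y a N H q) (blks N H) (targH H))

theorem targ_lt {H : List (List ℕ)} {n : ℕ} (h : n ∈ targH H) : n < nL H := by
  unfold targH targ at h
  rw [List.mem_flatMap] at h
  obtain ⟨z, hz, hn⟩ := h
  obtain ⟨j, hj, rfl⟩ := mem_crng.1 hn
  have h1 := (OK_clauses H).2 z hz
  have h2 : z.2 < (clauses H).length := by
    have := List.snd_lt_of_mem_zipIdx hz
    simpa using this
  unfold nL
  have h3 : (z.2 + 1) * width H ≤ (clauses H).length * width H := Nat.mul_le_mul_right _ h2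
  rw [Nat.add_mul, one_mul] at h3
  omega

theorem shifts_length (n : ℕ) (q : Wd) (C : List Wd) :
    (shifts n q C).length = (2 * n + 1) * C.length := by
  unfold shifts
  rw [List.length_flatMap]
  simp

theorem solve_iff (hS : Orc X S) (hp : p.Prime) {H' : Subgroup G} {Y : List Wd} {a : Wd}
    (hY : Subgroup.closure {y | y ∈ Y.map (ev X)} = H')
    (hcomm : ∀ h ∈ H', ∀ k ∈ H', cj h (ev X a) * cj k (ev X a) = cj k (ev X a) * cj h (ev X a))
    (hap : ev X a ^ p = 1) (hinf : {x | ∃ h ∈ H', x = cj h (ev X a)}.Infinite)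
    {N : ℕ} {H : List (List ℕ)} (hN : ∀ e ∈ H, ∀ v ∈ e, v < N) :
    solve S p Y a N H = true ↔ NAE H := by
  classical
  have hc := orb_comm hcomm
  have he := orb_pow hcomm hap
  have hYH : ∀ y ∈ Y.map (ev X), y ∈ H' := fun y hy => by
    rw [← hY]
    exact Subgroup.subset_closure hy
  have hq : ∀ q ∈ Y, ∀ x ∈ orb H' (ev X a), ∀ s : ℤ, cj (ev X q ^ s) x ∈ orb H' (ev X a) :=
    fun q hqY x hx s => cj_mem_orb (zpow_mem (hYH _ (List.mem_map_of_mem hqY)) s) hx
  obtain ⟨m, hm⟩ : ∃ m, m = nb N H := ⟨_, rfl⟩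
  obtain ⟨L, hL⟩ : ∃ L, L = nL H := ⟨_, rfl⟩
  obtain ⟨B, hB⟩ : ∃ B, B = fnd S p Y a N H := ⟨_, rfl⟩
  obtain ⟨G0, hG0⟩ : ∃ G0, G0 = B.take L := ⟨_, rfl⟩
  obtain ⟨Cq, hCq⟩ : ∃ Cq : Wd → List Wd, Cq = fun q => pick S p m q G0 (2 * m) B := ⟨_, rfl⟩
  have htree := iter_tree hS hp.two_le hc he hY hinf (nD p Y.length N H)
  have hBt : Tree (Y.map (ev X)) (ev X a) (B.map (ev X)) := by rw [hB]; exact htree.1
  have hBl : B.length = nD p Y.length N H + 1 := by rw [hB]; exact htree.2
  have hBA : ∀ x ∈ B, ev X x ∈ orb H' (ev X a) := fun x hx =>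
    hBt.mem hYH _ (List.mem_map_of_mem hx)
  have hGA : ∀ x ∈ G0, ev X x ∈ orb H' (ev X a) := fun x hx =>
    hBA x (by rw [hG0] at hx; exact List.mem_of_mem_take hx)
  have hGI : Ind (G0.map (ev X)) := by
    rw [hG0, List.map_take]
    exact hBt.ind.take L
  have hGl : G0.length = L := by
    rw [hG0, List.length_take, hBl]
    unfold nD
    rw [← hL]
    omega
  have hspec : ∀ q ∈ Y, Good p (ev X q) m (G0.map (ev X)) ((Cq q).map (ev X)) ∧
      (Cq q).length ≤ 2 * m ∧ (∀ x ∈ Cq q, ev X x ∈ orb H' (ev X a)) ∧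
      ((Cq q).length < 2 * m → ∀ v ∈ B, ¬ Loc p (ev X q) m (ev X v)
          (SH (ev X q) m ((Cq q ++ G0).map (ev X)))) := by
    intro q hqY
    obtain ⟨C', e, g1, g2, g3, -, g5⟩ := pick_spec hS hp hc he (n := m) (hq q hqY) hGA (2 * m) B []
      hBA (by simp) trivial (by simp)
    have e' : Cq q = C' := by rw [e, hCq]; rfl
    rw [e']
    exact ⟨g1, g2, g3, g5⟩
  have hsolve : solve S p Y a N H = true ↔ ∃ q ∈ Y, (Cq q).length = 2 * m ∧
      S (inst q G0 (Cq q) (blks N H) (targH H)) = true := by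
    unfold solve
    rw [List.any_eq_true]
    apply exists_congr
    intro q
    apply and_congr_right
    intro _
    rw [Bool.and_eq_true, beq_iff_eq, hCq, hG0, hB, hL, hm]
    rfl
  rw [hsolve]
  have hblk : (blks N H).length = m := by rw [hm]; rfl
  constructor
  · rintro ⟨q, hqY, hlen, hSi⟩
    obtain ⟨g1, g2, g3, -⟩ := hspec q hqY
    obtain ⟨s, hs, hcount⟩ := inst_sound hS hp hc he (hq q hqY) hGA g3 (by rw [hlen, hblk])
      (le_of_eq hblk) g1 hGI hSi
    refine sound hp.two_le hs fun n hn => hcount n ?_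
    rw [hGl, hL]
    exact targ_lt hn
  · intro hnae
    obtain ⟨s, hs, hperm⟩ := complete hN hnae
    have hex : ∃ q ∈ Y, (Cq q).length = 2 * m := by
      by_contra hcon
      push Not at hcon
      have hlt : ∀ q ∈ Y, (Cq q).length < 2 * m := fun q hqY =>
        lt_of_le_of_ne (hspec q hqY).2.1 (hcon q hqY)
      obtain ⟨W, hW⟩ : ∃ W : G → List G, W = fun y => if h : ∃ q ∈ Y, ev X q = y then
          (shifts m h.choose (Cq h.choose ++ G0)).map (ev X) else [] := ⟨_, rfl⟩
      have hWy : ∀ y ∈ Y.map (ev X), ∃ q ∈ Y, ev X q = y ∧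
          W y = (shifts m q (Cq q ++ G0)).map (ev X) := by
        intro y hy
        obtain ⟨q, hqY, hqy⟩ := List.mem_map.1 hy
        have hex : ∃ q ∈ Y, ev X q = y := ⟨q, hqY, hqy⟩
        refine ⟨hex.choose, hex.choose_spec.1, hex.choose_spec.2, ?_⟩
        rw [hW]
        simp only
        rw [dif_pos hex]
      have hsmall := hBt.small hp hc he hYH (n := m) (w := (2 * m + 1) * (2 * m + L)) (Wq := W)
        (by
          intro y hy x hx
          obtain ⟨q, hqY, hqy, hWq⟩ := hWy y hy
          rw [hWq] at hx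
          obtain ⟨w, hw, rfl⟩ := List.mem_map.1 hx
          unfold shifts at hw
          rw [List.mem_flatMap] at hw
          obtain ⟨i, -, hw⟩ := hw
          obtain ⟨c, hc', rfl⟩ := List.mem_map.1 hw
          rw [ev_wcj, ev_wz]
          apply hq q hqY
          rcases List.mem_append.1 hc' with h | h
          · exact (hspec q hqY).2.2.1 c h
          · exact hGA c h)
        (by
          intro y hy
          obtain ⟨q, hqY, hqy, hWq⟩ := hWy y hy
          rw [hWq, List.length_map, shifts_length, List.length_append, hGl]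
          exact Nat.mul_le_mul_left _ (Nat.add_le_add_right (hspec q hqY).2.1 _))
        (by
          intro y hy v hv
          obtain ⟨q, hqY, hqy, hWq⟩ := hWy y hy
          obtain ⟨v', hv', rfl⟩ := List.mem_map.1 hv
          rw [hWq, cl_shifts, ← hqy]
          exact (hspec q hqY).2.2.2 (hlt q hqY) v' hv')
      rw [List.length_map, hBl, List.length_map] at hsmall
      unfold nD at hsmall
      rw [← hm, ← hL] at hsmall
      omega
    obtain ⟨q, hqY, hlen⟩ := hex
    exact ⟨q, hqY, hlen, inst_complete hS hc (hq q hqY) hGA (hspec q hqY).2.2.1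
      (by rw [hlen, hblk]) hs hperm⟩

end Pool.Agent.SspConj
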