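import Pool.Agent.Lib.MP_a9d022_lc.Blocks

/-! # Subset products of blocks are exclusive choices -/

namespace Pool.Agent.SspConj

variable {G : Type} [Group G]

/-- all factors of a list of blocks -/
def itemsL (q : G) (T : List (Blk G)) : List G := T.flatMap fun t => t.items q

theorem itemsL_cons (q : G) (t : Blk G) (T : List (Blk G)) :
    itemsL q (t :: T) = t.items q ++ itemsL q T := rfl

/-- the options of a block are in the span of the general coordinates -/
def Opt (Gam : List G) (T : List (Blk G)) : Prop := ∀ t ∈ T, t.u ∈ cl Gam ∧ t.b ∈ cl Gam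

theorem abs01 {a b : ℕ} (ha : a = 0 ∨ a = 1) (hb : b = 0 ∨ b = 1) : |(a : ℤ) - b| ≤ 1 := by
  rcases ha with rfl | rfl <;> rcases hb with rfl | rfl <;> simp

theorem abs01' {a : ℕ} (ha : a = 0 ∨ a = 1) : |(a : ℤ)| ≤ 1 := by
  rcases ha with rfl | rfl <;> simp

/-- the shape of an arbitrary subset product -/
theorem rest {q : G} {Gam : List G} : ∀ {T : List (Blk G)}, Opt Gam T → ∀ {u : List G},
    u.Sublist (itemsL q T) → ∃ w ∈ SH q T.length (crd T ++ Gam), ∃ S : ℤ,
      |S| ≤ T.length ∧ u.prod = w * q ^ S := by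
  intro T
  induction T with
  | nil =>
    intro _ u hu
    have : u = [] := by simpa [itemsL] using hu
    exact ⟨1, one_mem _, 0, by simp, by simp [this]⟩
  | cons t T ih =>
    intro hO u hu
    rw [itemsL_cons] at hu
    obtain ⟨u1, u2, rfl, h1, h2⟩ := List.sublist_append_iff.1 hu
    obtain ⟨w, hw, S, hS, e2⟩ := ih (fun t' ht' => hO t' (List.mem_cons_of_mem _ ht')) h2
    obtain ⟨g, d, a, b, c, hg, hd, ha, hb, hc, e1⟩ := items_prod h1
    have hsub : ∀ x ∈ crd T ++ Gam, x ∈ crd (t :: T) ++ Gam := by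
      intro x hx
      rw [crd_cons]
      rcases List.mem_append.1 hx with hx | hx
      · exact List.mem_append_left _ (List.mem_cons_of_mem _ (List.mem_cons_of_mem _ hx))
      · exact List.mem_append_right _ hx
    have hrm : t.r ∈ crd (t :: T) ++ Gam := by simp [crd_cons]
    have hsm : t.s ∈ crd (t :: T) ++ Gam := by simp [crd_cons]
    have hlen : (t :: T).length = T.length + 1 := rfl
    have hGS : ∀ n, cl Gam ≤ SH q n (crd (t :: T) ++ Gam) := fun n =>
      (cl_mono' fun x hx => List.mem_append_right _ hx).trans cl_le_SH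
    obtain ⟨hu', hb'⟩ := hO t List.mem_cons_self
    have hr0 : t.r ∈ SH q 0 (crd (t :: T) ++ Gam) := mem_SH_zero hrm
    have hs0 : t.s ∈ SH q 0 (crd (t :: T) ++ Gam) := mem_SH_zero hsm
    have m1 : SH q 0 (crd (t :: T) ++ Gam) ≤ SH q (T.length + 1) (crd (t :: T) ++ Gam) :=
      SH_mono (Nat.zero_le _) fun x hx => hx
    have hx1 : cj (q ^ (a : ℤ)) ((t.b * t.s) ^ b * t.r ^ c) ∈
        SH q (T.length + 1) (crd (t :: T) ++ Gam) := by
      apply cj_mem_SH (n := 0)
      · exact mul_mem (pow_mem (mul_mem (hGS 0 hb') hs0) _) (pow_mem hr0 _)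
      · have := abs01' ha
        push_cast
        omega
    have hx2 : cj q t.r ∈ SH q (T.length + 1) (crd (t :: T) ++ Gam) := by
      have := cj_mem_SH (m := T.length + 1) hr0 (s := 1) (by simp)
      rwa [zpow_one] at this
    have hx3 : cj (q ^ ((a : ℤ) - c)) w ∈ SH q (T.length + 1) (crd (t :: T) ++ Gam) := by
      apply cj_mem_SH (n := T.length)
      · exact SH_mono le_rfl hsub hw
      · have := abs01 ha hc
        push_cast
        omega
    refine ⟨((t.r * cj q t.r)⁻¹) ^ g * (t.s⁻¹) ^ d * (t.u * t.r) ^ a *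
        cj (q ^ (a : ℤ)) ((t.b * t.s) ^ b * t.r ^ c) * cj (q ^ ((a : ℤ) - c)) w, ?_,
        (a : ℤ) - c + S, ?_, ?_⟩
    · rw [hlen]
      exact mul_mem (mul_mem (mul_mem (mul_mem (pow_mem (inv_mem (mul_mem (m1 hr0) hx2)) _)
        (pow_mem (inv_mem (m1 hs0)) _)) (pow_mem (mul_mem (hGS _ hu') (m1 hr0)) _)) hx1) hx3
    · rw [hlen]
      have := abs01 ha hc
      have h3 := abs_add_le ((a : ℤ) - c) S
      push_cast
      omega
    · rw [List.prod_append, e1, e2, zpow_add]
      unfold cj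
      group

variable {A : Subgroup G} {p : ℕ}

theorem dvd_one_absurd (hp : 2 ≤ p) : ¬ (p : ℤ) ∣ 1 := by
  intro h
  have := Int.le_of_dvd (by norm_num) h
  omega

theorem dvd_neg_one_absurd (hp : 2 ≤ p) : ¬ (p : ℤ) ∣ -1 := by
  intro h
  exact dvd_one_absurd hp ((dvd_neg).1 h)

theorem ac7 (hc : ∀ x ∈ A, ∀ y ∈ A, x * y = y * x) {x1 x2 x3 x4 x5 x6 x7 : G} (h1 : x1 ∈ A)
    (h2 : x2 ∈ A) (h3 : x3 ∈ A) (h4 : x4 ∈ A) (h5 : x5 ∈ A) (h6 : x6 ∈ A) (h7 : x7 ∈ A) :
    x1 * x2 * (x3 * x4) * (x5 * x6) * x7 = x1 * x4 * x6 * (x2 * x3 * x5 * x7) := by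
  letI : CommGroup A := { (inferInstance : Group A) with
    mul_comm := fun x y => Subtype.ext (hc _ x.2 _ y.2) }
  have key : (⟨x1, h1⟩ : A) * ⟨x2, h2⟩ * (⟨x3, h3⟩ * ⟨x4, h4⟩) * (⟨x5, h5⟩ * ⟨x6, h6⟩) * ⟨x7, h7⟩ =
      ⟨x1, h1⟩ * ⟨x4, h4⟩ * ⟨x6, h6⟩ * (⟨x2, h2⟩ * ⟨x3, h3⟩ * ⟨x5, h5⟩ * ⟨x7, h7⟩) := by
    ac_rfl
  exact congrArg Subtype.val key

theorem loc_use (hc : ∀ x ∈ A, ∀ y ∈ A, x * y = y * x) {q v : G} {n : ℕ} {W : Subgroup G}
    (hL : Loc p q n v W) (hWA : W ≤ A) (hv : v ∈ A) (hv' : cj q v ∈ A) {x : G} (hx : x ∈ W)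
    {c₁ c₂ S : ℤ} (hS : |S| ≤ n) (h : v ^ c₁ * (cj q v) ^ c₂ * x * q ^ S ∈ W) :
    (p : ℤ) ∣ c₁ ∧ (p : ℤ) ∣ c₂ := by
  have h1 : v ^ c₁ * (cj q v) ^ c₂ * x ∈ A :=
    mul_mem (mul_mem (zpow_mem hv _) (zpow_mem hv' _)) (hWA hx)
  have h2 : q ^ S ∈ A := by
    have := mul_mem (inv_mem h1) (hWA h)
    rwa [← mul_assoc, inv_mul_cancel, one_mul] at this
  apply hL c₁ c₂ S hS
  have h3 : x * q ^ S = q ^ S * x := hc _ (hWA hx) _ h2
  have h4 : v ^ c₁ * (cj q v) ^ c₂ * q ^ S = v ^ c₁ * (cj q v) ^ c₂ * x * q ^ S * x⁻¹ := by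
    rw [mul_assoc (v ^ c₁ * (cj q v) ^ c₂) x, h3]
    group
  rw [h4]
  exact mul_mem h (inv_mem hx)

/-- the main peeling step -/
theorem peel (hp : 2 ≤ p) (hc : ∀ x ∈ A, ∀ y ∈ A, x * y = y * x) {q : G}
    (hq : ∀ x ∈ A, ∀ s : ℤ, cj (q ^ s) x ∈ A) {Gam : List G} (hGam : ∀ x ∈ Gam, x ∈ A) {n : ℕ} :
    ∀ {T : List (Blk G)}, T.length ≤ n → Opt Gam T → (∀ x ∈ crd T, x ∈ A) →
      Good p q n Gam (crd T) → ∀ {g : G}, g ∈ cl Gam → ∀ {u : List G}, u.Sublist (itemsL q T) →
      u.prod = g → ∃ sel : List G,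
        List.Forall₂ (fun (t : Blk G) x => x = 1 ∨ x = t.u ∨ x = t.b) T sel ∧ sel.prod = g := by
  intro T
  induction T with
  | nil =>
    intro _ _ _ _ g _ u hu hug
    have : u = [] := by simpa [itemsL] using hu
    exact ⟨[], List.Forall₂.nil, by rw [← hug, this]⟩
  | cons t T ih =>
    intro hn hO hA hG g hg u hu hug
    rw [itemsL_cons] at hu
    obtain ⟨u1, u2, rfl, h1, h2⟩ := List.sublist_append_iff.1 hu
    have hO' : Opt Gam T := fun t' ht' => hO t' (List.mem_cons_of_mem _ ht')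
    obtain ⟨w, hw, S, hS, e2⟩ := rest hO' h2
    obtain ⟨γ, d, a, b, c, hγ, hd, ha, hb, hc', e1⟩ := items_prod h1
    rw [crd_cons] at hG hA
    obtain ⟨hLr, hLs, hG'⟩ := hG
    have hlen : (t :: T).length = T.length + 1 := rfl
    rw [hlen] at hn
    have hrA : t.r ∈ A := hA _ List.mem_cons_self
    have hsA : t.s ∈ A := hA _ (List.mem_cons_of_mem _ List.mem_cons_self)
    have hcA : ∀ x ∈ crd T, x ∈ A := fun x hx =>
      hA x (List.mem_cons_of_mem _ (List.mem_cons_of_mem _ hx))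
    obtain ⟨huG, hbG⟩ := hO t List.mem_cons_self
    have hGA : cl Gam ≤ A := cl_le hGam
    -- the two spans
    obtain ⟨Ws, hWs⟩ : ∃ Ws, Ws = SH q n (crd T ++ Gam) := ⟨_, rfl⟩
    obtain ⟨Wr, hWr⟩ : ∃ Wr, Wr = SH q n ((t.s :: crd T) ++ Gam) := ⟨_, rfl⟩
    rw [← hWs] at hLs
    rw [← hWr] at hLr
    have hWsA : Ws ≤ A := by
      rw [hWs]
      refine SH_le (fun x hx => ?_) hq
      rcases List.mem_append.1 hx with hx | hx
      · exact hcA x hx
      · exact hGam x hx
    have hWrA : Wr ≤ A := by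
      rw [hWr]
      refine SH_le (fun x hx => ?_) hq
      rcases List.mem_append.1 hx with hx | hx
      · rcases List.mem_cons.1 hx with rfl | hx
        · exact hsA
        · exact hcA x hx
      · exact hGam x hx
    have hsr : Ws ≤ Wr := by
      rw [hWs, hWr]
      refine SH_mono le_rfl fun x hx => ?_
      rcases List.mem_append.1 hx with hx | hx
      · exact List.mem_append_left _ (List.mem_cons_of_mem _ hx)
      · exact List.mem_append_right _ hx
    have hGs : cl Gam ≤ Ws := by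
      rw [hWs]
      exact (cl_mono' fun x hx => List.mem_append_right _ hx).trans cl_le_SH
    have hsWr : ∀ s : ℤ, |s| ≤ 1 → cj (q ^ s) t.s ∈ Wr := by
      intro s hs
      rw [hWr]
      exact mem_SH (List.mem_append_left _ List.mem_cons_self) (hs.trans (by omega))
    have hwWs : ∀ s : ℤ, |s| ≤ 1 → cj (q ^ s) w ∈ Ws := by
      intro s hs
      rw [hWs]
      exact cj_mem_SH hw (by omega)
    have hbWs : ∀ s : ℤ, |s| ≤ 1 → cj (q ^ s) t.b ∈ Ws := by
      intro s hs
      rw [hWs]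
      have h3 : t.b ∈ SH q 0 (crd T ++ Gam) :=
        ((cl_mono' fun x hx => List.mem_append_right _ hx).trans cl_le_SH) hbG
      exact cj_mem_SH h3 (by push_cast; omega)
    have hqrA : cj q t.r ∈ A := by
      have := hq _ hrA 1
      rwa [zpow_one] at this
    have hqsA : cj q t.s ∈ A := by
      have := hq _ hsA 1
      rwa [zpow_one] at this
    have hbA : t.b ∈ A := hGA hbG
    have huA : t.u ∈ A := hGA huG
    have hwA : w ∈ A := by
      have := hWsA (hwWs 0 (by simp))
      rwa [zpow_zero, one_cj] at this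
    have hgA : g ∈ A := hGA hg
    rw [List.prod_append, e1, e2] at hug
    have hbs : ∀ k : ℕ, (t.b * t.s) ^ k ∈ A := fun k => pow_mem (mul_mem hbA hsA) k
    have hcja : ∀ x ∈ A, cj (q ^ (a : ℤ)) x ∈ A := fun x hx => hq x hx _
    have hur : (t.u * t.r) ^ a = t.u ^ a * t.r ^ a := by
      rcases ha with rfl | rfl <;> simp
    have hw' : cj (q ^ ((a : ℤ) - c)) w ∈ Ws := hwWs _ (abs01 ha hc')
    -- the first coordinate
    have step1 : ((t.r * cj q t.r)⁻¹) ^ γ * t.r ^ a * (cj (q ^ (a : ℤ)) t.r) ^ c *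
        ((t.s⁻¹) ^ d * t.u ^ a * cj (q ^ (a : ℤ)) ((t.b * t.s) ^ b) *
          cj (q ^ ((a : ℤ) - c)) w) * q ^ ((a : ℤ) - c + S) = g := by
      rw [← hug, ← ac7 hc (pow_mem (inv_mem (mul_mem hrA hqrA)) _) (pow_mem (inv_mem hsA) _)
        (pow_mem huA _) (pow_mem hrA _) (hcja _ (hbs b)) (pow_mem (hcja _ hrA) _) (hWsA hw'),
        hur, cj_mul, cj_pow _ t.r, zpow_add]
      unfold cj
      group
    have hX : (t.s⁻¹) ^ d * t.u ^ a * cj (q ^ (a : ℤ)) ((t.b * t.s) ^ b) *
          cj (q ^ ((a : ℤ) - c)) w ∈ Wr := by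
      refine mul_mem (mul_mem (mul_mem (pow_mem (inv_mem ?_) _)
        (pow_mem (hsr (hGs huG)) _)) ?_) (hsr hw')
      · have := hsWr 0 (by simp)
        rwa [zpow_zero, one_cj] at this
      · rw [cj_pow, cj_mul]
        exact pow_mem (mul_mem (hsr (hbWs _ (abs01' ha))) (hsWr _ (abs01' ha))) _
    have hSn : |(a : ℤ) - c + S| ≤ n := by
      have := abs01 ha hc'
      have h3 := abs_add_le ((a : ℤ) - c) S
      omega
    have hR : ((t.r * cj q t.r)⁻¹) ^ γ * t.r ^ a * (cj (q ^ (a : ℤ)) t.r) ^ c =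
        t.r ^ (-(γ : ℤ) + a + (1 - a) * c) * (cj q t.r) ^ (-(γ : ℤ) + a * c) := by
      have h5 : t.r * cj q t.r = cj q t.r * t.r := hc _ hrA _ hqrA
      have h6 : (t.r * cj q t.r)⁻¹ = t.r⁻¹ * (cj q t.r)⁻¹ := by rw [h5, mul_inv_rev]
      have h7 : (cj q t.r)⁻¹ * t.r = t.r * (cj q t.r)⁻¹ := hc _ (inv_mem hqrA) _ hrA
      rw [h6]
      rcases hγ with rfl | rfl <;> rcases ha with rfl | rfl <;> rcases hc' with rfl | rfl <;>
        simp [one_cj, mul_assoc, h7]
    have hdvd := loc_use hc hLr hWrA hrA hqrA hX hSn (c₁ := -(γ : ℤ) + a + (1 - a) * c)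
      (c₂ := -(γ : ℤ) + a * c) (by rw [← hR, step1]; exact hsr (hGs hg))
    have hcase : (γ = 0 ∧ a = 0 ∧ c = 0) ∨ (γ = 1 ∧ a = 1 ∧ c = 1) := by
      have n1 := dvd_one_absurd hp
      have n2 := dvd_neg_one_absurd hp
      rcases hγ with rfl | rfl <;> rcases ha with rfl | rfl <;> rcases hc' with rfl | rfl <;>
        simp_all
    have hw0 : w ∈ Ws := by
      have := hwWs 0 (by simp)
      rwa [zpow_zero, one_cj] at this
    have hb0 : t.b ∈ Ws := hGs hbG
    have hu0 : t.u ∈ Ws := hGs huG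
    have hb1 : cj q t.b ∈ Ws := by
      have := hbWs 1 (by simp)
      rwa [zpow_one] at this
    have hS' : |S| ≤ n := hS.trans (by omega)
    have n1 := dvd_one_absurd hp
    have n2 := dvd_neg_one_absurd hp
    have hn' : T.length ≤ n := by omega
    have hrr : (t.r * cj q t.r)⁻¹ * t.r * cj q t.r = 1 := by
      rw [mul_assoc, inv_mul_cancel]
    have finish : ∀ x : G, x ∈ cl Gam → (x = 1 ∨ x = t.u ∨ x = t.b) → x * (w * q ^ S) = g →
        ∃ sel : List G,
        List.Forall₂ (fun (t : Blk G) x => x = 1 ∨ x = t.u ∨ x = t.b) (t :: T) sel ∧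
          sel.prod = g := by
      intro x hx hx3 hxe
      have h8 : u2.prod = x⁻¹ * g := by rw [e2, ← hxe]; group
      obtain ⟨sel, hsel, hsp⟩ := ih hn' hO' hcA hG' (mul_mem (inv_mem hx) hg) h2 h8
      exact ⟨x :: sel, List.Forall₂.cons hx3 hsel, by rw [List.prod_cons, hsp]; group⟩
    rcases hcase with ⟨rfl, rfl, rfl⟩ | ⟨rfl, rfl, rfl⟩
    · -- no shift
      have e3 : (t.s⁻¹) ^ d * (t.b * t.s) ^ b * w * q ^ S = g := by
        rw [← step1]
        simp [one_cj, mul_assoc]
      rcases hd with rfl | rfl <;> rcases hb with rfl | rfl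
      · refine finish 1 (one_mem _) (Or.inl rfl) ?_
        rw [← e3]
        group
      · exfalso
        have h9 := loc_use hc hLs hWsA hsA hqsA (mul_mem hb0 hw0) hS' (c₁ := 1) (c₂ := 0) (by
          have : t.s ^ (1 : ℤ) * (cj q t.s) ^ (0 : ℤ) * (t.b * w) * q ^ S = g := by
            rw [← e3]
            have := hc _ hsA _ hbA
            simp only [zpow_one, zpow_zero, mul_one, pow_zero, pow_one, one_mul]
            rw [← mul_assoc t.s, this]
          rw [this]
          exact hGs hg)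
        exact n1 h9.1
      · exfalso
        have h9 := loc_use hc hLs hWsA hsA hqsA hw0 hS' (c₁ := -1) (c₂ := 0) (by
          have : t.s ^ (-1 : ℤ) * (cj q t.s) ^ (0 : ℤ) * w * q ^ S = g := by
            rw [← e3]
            simp
          rw [this]
          exact hGs hg)
        exact n2 h9.1
      · refine finish t.b hbG (Or.inr (Or.inr rfl)) ?_
        rw [← e3, pow_one, pow_one, hc _ hbA _ hsA]
        group
    · -- shift
      have e3 : (t.s⁻¹) ^ d * t.u * cj q ((t.b * t.s) ^ b) * w * q ^ S = g := by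
        rw [← step1]
        simp [one_cj, mul_assoc]
      rcases hd with rfl | rfl <;> rcases hb with rfl | rfl
      · refine finish t.u huG (Or.inr (Or.inl rfl)) ?_
        rw [← e3]
        simp [cj_one', mul_assoc]
      · exfalso
        have h9 := loc_use hc hLs hWsA hsA hqsA (mul_mem (mul_mem hu0 hb1) hw0) hS' (c₁ := 0)
          (c₂ := 1) (by
          have : t.s ^ (0 : ℤ) * (cj q t.s) ^ (1 : ℤ) * (t.u * cj q t.b * w) * q ^ S = g := by
            rw [← e3]
            have h10 := hc _ hqsA _ (mul_mem huA (hWsA hb1))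
            simp only [zpow_one, zpow_zero, pow_zero, pow_one, one_mul]
            rw [cj_mul, ← mul_assoc (cj q t.s), h10]
            group
          rw [this]
          exact hGs hg)
        exact n1 h9.2
      · exfalso
        have h9 := loc_use hc hLs hWsA hsA hqsA (mul_mem hu0 hw0) hS' (c₁ := -1) (c₂ := 0) (by
          have : t.s ^ (-1 : ℤ) * (cj q t.s) ^ (0 : ℤ) * (t.u * w) * q ^ S = g := by
            rw [← e3]
            simp [cj_one', mul_assoc]
          rw [this]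
          exact hGs hg)
        exact n2 h9.1
      · exfalso
        have h9 := loc_use hc hLs hWsA hsA hqsA (mul_mem (mul_mem hu0 hb1) hw0) hS' (c₁ := -1)
          (c₂ := 1) (by
          have : t.s ^ (-1 : ℤ) * (cj q t.s) ^ (1 : ℤ) * (t.u * cj q t.b * w) * q ^ S = g := by
            rw [← e3]
            have h10 := hc _ hqsA _ (mul_mem huA (hWsA hb1))
            simp only [zpow_one, zpow_neg, pow_one]
            rw [cj_mul, mul_assoc (t.s⁻¹), ← mul_assoc (cj q t.s), h10]
            group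
          rw [this]
          exact hGs hg)
        exact n1 h9.2

/-- exclusive choices are subset products -/
theorem conv (hc : ∀ x ∈ A, ∀ y ∈ A, x * y = y * x) {q : G}
    (hq : ∀ x ∈ A, ∀ s : ℤ, cj (q ^ s) x ∈ A) :
    ∀ {T : List (Blk G)}, (∀ t ∈ T, t.u ∈ A ∧ t.b ∈ A ∧ t.r ∈ A ∧ t.s ∈ A) → ∀ {sel : List G},
      List.Forall₂ (fun (t : Blk G) x => x = 1 ∨ x = t.u ∨ x = t.b) T sel →
      ∃ u : List G, u.Sublist (itemsL q T) ∧ u.prod = sel.prod := by
  intro T
  induction T with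
  | nil =>
    intro _ sel h
    cases h
    exact ⟨[], List.Sublist.refl _, rfl⟩
  | cons t T ih =>
    intro hA sel h
    cases h with
    | @cons _ x _ sel' hx h' =>
      obtain ⟨u', hu', e'⟩ := ih (fun t' ht' => hA t' (List.mem_cons_of_mem _ ht')) h'
      obtain ⟨huA, hbA, hrA, hsA⟩ := hA t List.mem_cons_self
      have hqr : cj q t.r ∈ A := by
        have := hq _ hrA 1
        rwa [zpow_one] at this
      rcases hx with rfl | rfl | rfl
      · refine ⟨u', ?_, by simp [e']⟩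
        rw [itemsL_cons]
        exact (List.nil_sublist _).append hu'
      · refine ⟨[(t.r * cj q t.r)⁻¹, t.u * t.r * q, t.r * q⁻¹] ++ u', ?_, ?_⟩
        · rw [itemsL_cons]
          refine List.Sublist.append ?_ hu'
          unfold Blk.items
          exact List.Sublist.cons_cons _ (List.Sublist.cons _ (List.Sublist.cons_cons _
            (List.Sublist.cons _ (List.Sublist.cons_cons _ (List.Sublist.refl _)))))
        · have h1 : t.u * t.r * q * (t.r * q⁻¹) = t.r * cj q t.r * t.u := by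
            have h2 : t.u * t.r * q * (t.r * q⁻¹) = t.u * (t.r * cj q t.r) := by
              unfold cj; group
            rw [h2]
            exact hc _ huA _ (mul_mem hrA hqr)
          rw [List.prod_append, List.prod_cons, List.prod_cons, List.prod_cons, List.prod_nil,
            mul_one, h1, e', List.prod_cons]
          group
      · refine ⟨[t.s⁻¹, t.b * t.s] ++ u', ?_, ?_⟩
        · rw [itemsL_cons]
          refine List.Sublist.append ?_ hu'
          unfold Blk.items
          exact List.Sublist.cons _ (List.Sublist.cons_cons _ (List.Sublist.cons _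
            (List.Sublist.cons_cons _ (List.Sublist.cons _ (List.Sublist.refl _)))))
        · rw [List.prod_append, List.prod_cons, List.prod_cons, List.prod_nil, mul_one,
            e', List.prod_cons, hc _ hbA _ hsA]
          group

end Pool.Agent.SspConj
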