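import Mathlib

/-! # Spans in an elementary abelian subgroup, by subset products -/

namespace Pool.Agent.SspConj

variable {G : Type} [Group G]

/-- the subgroup generated by the entries of a list -/
def cl (B : List G) : Subgroup G := Subgroup.closure {x | x ∈ B}

/-- every entry repeated `k` times -/
def rep {α : Type} (k : ℕ) (B : List α) : List α := B.flatMap fun b => List.replicate k b

theorem rep_nil {α : Type} (k : ℕ) : rep k ([] : List α) = [] := rfl

theorem rep_cons {α : Type} (k : ℕ) (b : α) (B : List α) :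
    rep k (b :: B) = List.replicate k b ++ rep k B := rfl

theorem rep_length {α : Type} (k : ℕ) (B : List α) : (rep k B).length = k * B.length := by
  induction B with
  | nil => simp [rep_nil]
  | cons b B ih => rw [rep_cons, List.length_append, List.length_replicate, ih,
      List.length_cons]; ring

theorem rep_map {α β : Type} (k : ℕ) (B : List α) (f : α → β) :
    (rep k B).map f = rep k (B.map f) := by
  induction B with
  | nil => rfl
  | cons b B ih => rw [rep_cons, List.map_append, ih, List.map_cons, rep_cons,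
      List.map_replicate]

theorem mem_rep {α : Type} {k : ℕ} {B : List α} {x : α} (h : x ∈ rep k B) : x ∈ B := by
  unfold rep at h
  rw [List.mem_flatMap] at h
  obtain ⟨b, hb, hx⟩ := h
  rw [List.eq_of_mem_replicate hx]
  exact hb

theorem subset_cl (B : List G) {x : G} (h : x ∈ B) : x ∈ cl B := Subgroup.subset_closure h

theorem cl_le {B : List G} {K : Subgroup G} (h : ∀ x ∈ B, x ∈ K) : cl B ≤ K :=
  (Subgroup.closure_le K).2 h

theorem cl_mono {B C : List G} (h : ∀ x ∈ B, x ∈ cl C) : cl B ≤ cl C := cl_le h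

theorem cl_mono' {B C : List G} (h : ∀ x ∈ B, x ∈ C) : cl B ≤ cl C :=
  cl_le fun x hx => subset_cl C (h x hx)

section
variable {A : Subgroup G} {p : ℕ}

theorem mem_cl_cons (hp : 2 ≤ p) (hc : ∀ x ∈ A, ∀ y ∈ A, x * y = y * x)
    (he : ∀ x ∈ A, x ^ p = 1) {c : G} {B : List G} (hcA : c ∈ A) (hB : ∀ x ∈ B, x ∈ A) {v : G}
    (hv : v ∈ cl (c :: B)) : ∃ i < p, ∃ x ∈ cl B, v = c ^ i * x := by
  have hBA : cl B ≤ A := cl_le hB
  have hred : ∀ n : ℕ, c ^ n = c ^ (n % p) := by
    intro n
    conv_lhs => rw [← Nat.div_add_mod n p, pow_add, pow_mul, he c hcA, one_pow, one_mul]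
  unfold cl at hv
  induction hv using Subgroup.closure_induction with
  | mem x hx =>
    rcases List.mem_cons.1 hx with rfl | hx
    · exact ⟨1, by omega, 1, one_mem _, by simp⟩
    · exact ⟨0, by omega, x, subset_cl B hx, by simp⟩
  | one => exact ⟨0, by omega, 1, one_mem _, by simp⟩
  | mul x y _ _ hx hy =>
    obtain ⟨i, _, x', hx', rfl⟩ := hx
    obtain ⟨j, _, y', hy', rfl⟩ := hy
    refine ⟨(i + j) % p, Nat.mod_lt _ (by omega), x' * y', mul_mem hx' hy', ?_⟩
    rw [← hred, pow_add]
    have h1 : x' * c ^ j = c ^ j * x' := hc _ (hBA hx') _ (pow_mem hcA _)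
    calc c ^ i * x' * (c ^ j * y') = c ^ i * (x' * c ^ j) * y' := by group
      _ = c ^ i * c ^ j * (x' * y') := by rw [h1]; group
  | inv x _ hx =>
    obtain ⟨i, hi, x', hx', rfl⟩ := hx
    refine ⟨(p - i) % p, Nat.mod_lt _ (by omega), x'⁻¹, inv_mem hx', ?_⟩
    rw [← hred]
    have h1 : c ^ (p - i) = (c ^ i)⁻¹ := by
      rw [eq_inv_iff_mul_eq_one, ← pow_add]
      have : p - i + i = p := by omega
      rw [this]
      exact he c hcA
    rw [h1, mul_inv_rev]
    exact hc _ (inv_mem (hBA hx')) _ (inv_mem (pow_mem hcA _))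

/-- membership in a span is a subset product problem -/
theorem mem_cl_iff (hp : 2 ≤ p) (hc : ∀ x ∈ A, ∀ y ∈ A, x * y = y * x)
    (he : ∀ x ∈ A, x ^ p = 1) {B : List G} (hB : ∀ x ∈ B, x ∈ A) (v : G) :
    v ∈ cl B ↔ ∃ u : List G, u.Sublist (rep (p - 1) B) ∧ u.prod = v := by
  constructor
  · induction B generalizing v with
    | nil =>
      intro hv
      have : v = 1 := by
        have h1 : cl ([] : List G) = ⊥ := by
          unfold cl
          simp
        rw [h1] at hv
        exact (Subgroup.mem_bot).1 hv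
      exact ⟨[], List.nil_sublist _, by simp [this]⟩
    | cons c B ih =>
      intro hv
      obtain ⟨i, hi, x, hx, rfl⟩ := mem_cl_cons hp hc he (hB c List.mem_cons_self)
        (fun y hy => hB y (List.mem_cons_of_mem _ hy)) hv
      obtain ⟨u, hu, rfl⟩ := ih (fun y hy => hB y (List.mem_cons_of_mem _ hy)) x hx
      refine ⟨List.replicate i c ++ u, ?_, by simp⟩
      rw [rep_cons]
      exact List.Sublist.append ((List.replicate_sublist_replicate c).2 (by omega)) hu
  · rintro ⟨u, hu, rfl⟩
    exact Subgroup.list_prod_mem _ fun x hx => subset_cl B (mem_rep (hu.subset hx))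

theorem cl_finite (hp : 2 ≤ p) (hc : ∀ x ∈ A, ∀ y ∈ A, x * y = y * x)
    (he : ∀ x ∈ A, x ^ p = 1) {B : List G} (hB : ∀ x ∈ B, x ∈ A) :
    ((cl B : Subgroup G) : Set G).Finite ∧
      ((cl B : Subgroup G) : Set G).ncard ≤ 2 ^ ((p - 1) * B.length) := by
  classical
  have h1 : ((cl B : Subgroup G) : Set G) ⊆
      (((rep (p - 1) B).sublists.map List.prod).toFinset : Set G) := by
    intro v hv
    obtain ⟨u, hu, rfl⟩ := (mem_cl_iff hp hc he hB v).1 hv
    rw [Finset.mem_coe, List.mem_toFinset, List.mem_map]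
    exact ⟨u, List.mem_sublists.2 hu, rfl⟩
  refine ⟨(Finset.finite_toSet _).subset h1, (Set.ncard_le_ncard h1 (Finset.finite_toSet _)).trans ?_⟩
  rw [Set.ncard_coe_finset]
  refine (List.toFinset_card_le _).trans ?_
  rw [List.length_map, List.length_sublists, rep_length]

/-- triangular independence -/
def Ind : List G → Prop
  | [] => True
  | c :: B => c ∉ cl B ∧ Ind B

theorem card_ge (hp : 2 ≤ p) (hc : ∀ x ∈ A, ∀ y ∈ A, x * y = y * x)
    (he : ∀ x ∈ A, x ^ p = 1) {B : List G} (hB : ∀ x ∈ B, x ∈ A) (hI : Ind B) :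
    2 ^ B.length ≤ ((cl B : Subgroup G) : Set G).ncard := by
  induction B with
  | nil =>
    have h1 := (cl_finite hp hc he hB).1
    have : 0 < ((cl ([] : List G) : Subgroup G) : Set G).ncard :=
      (Set.ncard_pos h1).2 ⟨1, one_mem _⟩
    rw [List.length_nil, pow_zero]
    exact this
  | cons c B ih =>
    have hB' : ∀ x ∈ B, x ∈ A := fun y hy => hB y (List.mem_cons_of_mem _ hy)
    have h1 := ih hB' hI.2
    have hf := (cl_finite hp hc he hB).1
    have hf' := (cl_finite hp hc he hB').1
    have hle : cl B ≤ cl (c :: B) := cl_mono' fun x hx => List.mem_cons_of_mem _ hx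
    have hcm : c ∈ cl (c :: B) := subset_cl _ List.mem_cons_self
    have h2 : ((fun x => c * x) '' ((cl B : Subgroup G) : Set G)).ncard =
        ((cl B : Subgroup G) : Set G).ncard :=
      Set.ncard_image_of_injective _ (mul_right_injective c)
    have h3 : Disjoint ((cl B : Subgroup G) : Set G)
        ((fun x => c * x) '' ((cl B : Subgroup G) : Set G)) := by
      rw [Set.disjoint_left]
      rintro x hx ⟨y, hy, rfl⟩
      apply hI.1
      have : c = c * y * y⁻¹ := by group
      rw [this]
      exact mul_mem hx (inv_mem hy)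
    have h4 := Set.ncard_union_eq h3 hf' (hf'.image _)
    have h5 : ((cl B : Subgroup G) : Set G) ∪ ((fun x => c * x) '' ((cl B : Subgroup G) : Set G)) ⊆
        ((cl (c :: B) : Subgroup G) : Set G) := by
      rintro x (hx | ⟨y, hy, rfl⟩)
      · exact hle hx
      · exact mul_mem hcm (hle hy)
    have h6 := Set.ncard_le_ncard h5 hf
    rw [List.length_cons, pow_succ]
    omega

/-- an independent list in a span is not much longer than a generating list -/
theorem length_le (hp : 2 ≤ p) (hc : ∀ x ∈ A, ∀ y ∈ A, x * y = y * x)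
    (he : ∀ x ∈ A, x ^ p = 1) {B E : List G} (hB : ∀ x ∈ B, x ∈ A) (hE : ∀ x ∈ E, x ∈ A)
    (hI : Ind B) (h : ∀ x ∈ B, x ∈ cl E) : B.length ≤ (p - 1) * E.length := by
  have h1 := card_ge hp hc he hB hI
  have h2 := cl_finite hp hc he hE
  have h3 : ((cl B : Subgroup G) : Set G).ncard ≤ ((cl E : Subgroup G) : Set G).ncard :=
    Set.ncard_le_ncard (fun x hx => cl_mono h hx) h2.1
  have h4 : 2 ^ B.length ≤ 2 ^ ((p - 1) * E.length) := (h1.trans h3).trans h2.2
  exact (Nat.pow_le_pow_iff_right (by norm_num)).1 h4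

end

end Pool.Agent.SspConj
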