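import Pool.Agent.Lib.MP_a9d022_lc.Inst
import Pool.Agent.Lib.MP_17a834_lc.Msr.CookPT

/-! # The decision procedure runs in polynomial time -/

namespace Pool.Agent.SspConj

open Pool.Agent.MSR

variable {α : Type} [En α]

theorem PT_replicate {β : Type} [En β] {f : α → β} (k : ℕ) (hf : PT f) :
    PT (fun a => List.replicate k (f a)) := by
  have : PT (fun a => (List.range k).map fun _ => f a) := by fun_prop
  exact this.of_eq fun a => by simp [List.map_const']

@[fun_prop]
theorem PT_rep {B : α → List Wd} (k : ℕ) (hB : PT B) : PT (fun a => rep k (B a)) := by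
  unfold rep
  apply PT.flatMap hB
  exact PT_replicate k (PT.snd PT.id')

@[fun_prop]
theorem PT_winv {w : α → Wd} (hw : PT w) : PT (fun a => winv (w a)) := by
  unfold winv
  fun_prop

@[fun_prop]
theorem PT_wpow {k : α → ℕ} {w : α → Wd} (hk : PT k) (hw : PT w) :
    PT (fun a => wpow (k a) (w a)) := by
  unfold wpow
  fun_prop

@[fun_prop]
theorem PT_wcj {y w : α → Wd} (hy : PT y) (hw : PT w) : PT (fun a => wcj (y a) (w a)) := by
  unfold wcj
  fun_prop

@[fun_prop]
theorem PT_wz {n i : α → ℕ} {q : α → Wd} (hn : PT n) (hi : PT i) (hq : PT q) :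
    PT (fun a => wz (n a) (i a) (q a)) := by
  unfold wz
  fun_prop

theorem PT_inSp {S : List Wd × Wd → Bool} (hS : PT S) (p : ℕ) {B : α → List Wd} {w : α → Wd}
    (hB : PT B) (hw : PT w) : PT (fun a => inSp S p (B a) (w a)) := by
  unfold inSp
  exact hS.comp (PT.pair (PT_rep (p - 1) hB) hw)

theorem PT_cands (Y : List Wd) {B : α → List Wd} (hB : PT B) : PT (fun a => cands Y (B a)) := by
  unfold cands
  apply PT.flatMap hB
  have h1 : PT (fun p : α × Wd => p.2) := by fun_prop
  exact (PT.flatMap_const Y (fun y (p : α × Wd) => [wcj y p.2, wcj (winv y) p.2]) fun y _ => by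
    fun_prop)

theorem PT_grow {S : List Wd × Wd → Bool} (hS : PT S) (p : ℕ) (Y : List Wd) {B : α → List Wd}
    (hB : PT B) : PT (fun a => grow S p Y (B a)) := by
  unfold grow
  have h1 : PT (fun a => (cands Y (B a)).filter fun v => !inSp S p (B a) v) := by
    apply PT.filter (PT_cands Y hB)
    apply PT.not
    exact PT_inSp hS p (hB.comp (PT.fst PT.id')) (PT.snd PT.id')
  apply PT.lcase h1 hB
  exact PT.cons (PT.fst (PT.snd PT.id')) (hB.comp (PT.fst PT.id'))

theorem sz_sum {β : Type} [En β] (l : List β) : sz l = (l.map fun x => 2 * sz x + 1).sum := by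
  induction l with
  | nil => rfl
  | cons a l ih => rw [sz_cons, ih, List.map_cons, List.sum_cons]

theorem sz_winv (w : Wd) : sz (winv w) = sz w := by
  rw [sz_sum, sz_sum]
  unfold winv
  rw [List.map_reverse, List.sum_reverse, List.map_map]
  congr 1
  apply List.map_congr_left
  intro c _
  show 2 * sz (c.1, !c.2) + 1 = 2 * sz c + 1
  obtain ⟨n, b⟩ := c
  rw [sz_pair, sz_pair, sz_bool, sz_bool]

theorem sz_wcj (y w : Wd) : sz (wcj y w) = sz w + 2 * sz y := by
  unfold wcj
  rw [sz_append, sz_append, sz_winv]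
  ring

theorem sz_le_of {β : Type} [En β] {l : List β} {s : ℕ} (h : ∀ x ∈ l, sz x ≤ s) :
    sz l ≤ l.length * (2 * s + 1) := by
  induction l with
  | nil => simp [sz_nil]
  | cons a l ih =>
    rw [sz_cons, List.length_cons]
    have h1 := h a List.mem_cons_self
    have h2 := ih fun x hx => h x (List.mem_cons_of_mem _ hx)
    nlinarith

theorem grow_sz (S : List Wd × Wd → Bool) (p : ℕ) {Y : List Wd} {c : ℕ}
    (hc : ∀ y ∈ Y, sz y ≤ c) {B : List Wd} {s : ℕ} (hB : ∀ w ∈ B, sz w ≤ s) :
    (∀ w ∈ grow S p Y B, sz w ≤ s + 2 * c) ∧ (grow S p Y B).length ≤ B.length + 1 := by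
  unfold grow
  cases hl : (cands Y B).filter fun v => !inSp S p B v with
  | nil =>
    exact ⟨fun w hw => (hB w hw).trans (by omega), by simp [lcase]⟩
  | cons v l =>
    have hv : v ∈ cands Y B := by
      have : v ∈ (cands Y B).filter fun v => !inSp S p B v := by
        rw [hl]; exact List.mem_cons_self
      exact (List.mem_filter.1 this).1
    refine ⟨fun w hw => ?_, le_of_eq rfl⟩
    rcases List.mem_cons.1 hw with rfl | hw
    · obtain ⟨b, hb, y, hy, hor⟩ := mem_cands.1 hv
      have h1 := hB b hb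
      have h2 := hc y hy
      rcases hor with rfl | rfl
      · rw [sz_wcj]; omega
      · rw [sz_wcj, sz_winv]; omega
    · exact (hB w hw).trans (by omega)

theorem iter_sz (S : List Wd × Wd → Bool) (p : ℕ) {Y : List Wd} {c : ℕ}
    (hc : ∀ y ∈ Y, sz y ≤ c) (a : Wd) (k : ℕ) :
    (∀ w ∈ (grow S p Y)^[k] [a], sz w ≤ sz a + 2 * c * k) ∧
      ((grow S p Y)^[k] [a]).length ≤ k + 1 := by
  induction k with
  | zero =>
    refine ⟨fun w hw => ?_, le_of_eq rfl⟩
    have : w = a := List.mem_singleton.1 hw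
    rw [this]
    omega
  | succ k ih =>
    rw [Function.iterate_succ_apply']
    have h1 := grow_sz S p hc ih.1
    refine ⟨fun w hw => (h1.1 w hw).trans (le_of_eq (by ring)), h1.2.trans (by omega)⟩

theorem exists_bd (Y : List Wd) : ∃ c, ∀ y ∈ Y, sz y ≤ c := by
  induction Y with
  | nil => exact ⟨0, by simp⟩
  | cons y Y ih =>
    obtain ⟨c, hc⟩ := ih
    refine ⟨max (sz y) c, fun z hz => ?_⟩
    rcases List.mem_cons.1 hz with rfl | hz
    · exact le_max_left _ _
    · exact (hc z hz).trans (le_max_right _ _)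

theorem PT_iter_grow {S : List Wd × Wd → Bool} (hS : PT S) (p : ℕ) (Y : List Wd) (w : Wd)
    {D : α → ℕ} (hD : PT D) : PT (fun a => (grow S p Y)^[D a] [w]) := by
  obtain ⟨c, hc⟩ := exists_bd Y
  obtain ⟨e, he⟩ := hD.bound
  refine PT.iter (g := fun _ => grow S p Y) hD (PT.const [w])
    (PT_grow hS p Y (PT.snd PT.id')) ?_
  refine ⟨fun m => ((m + 2) ^ e + 1) * (2 * (sz w + 2 * c * (m + 2) ^ e) + 1),
    (((PB.id.add (PB.const 2)).pow e).add (PB.const 1)).mul (((PB.const 2).mul
      ((PB.const (sz w)).add ((PB.const (2 * c)).mul ((PB.id.add (PB.const 2)).pow e)))).add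
        (PB.const 1)), ?_⟩
  intro a k hk
  have h1 := iter_sz S p hc w k
  have h2 := sz_le_of h1.1
  have h3 := he a
  rw [sz_nat] at h3
  have h4 : k ≤ (sz a + 2) ^ e := hk.trans h3
  refine h2.trans (Nat.mul_le_mul (h1.2.trans (by omega)) ?_)
  have := Nat.mul_le_mul_left (2 * c) h4
  omega

theorem PT_shifts {n : α → ℕ} {q : Wd} {C : α → List Wd} (hn : PT n) (hC : PT C) :
    PT (fun a => shifts (n a) q (C a)) := by
  unfold shifts
  apply PT.flatMap
  · fun_prop
  · apply PT.map
    · exact hC.comp (PT.fst PT.id')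
    · have h1 : PT (fun z : (α × ℕ) × Wd => n z.1.1) :=
        hn.comp (PT.fst (PT.fst PT.id'))
      fun_prop

theorem PT_tests (p : ℕ) (q : Wd) {n : α → ℕ} {v : α → Wd} (hn : PT n) (hv : PT v) :
    PT (fun a => tests p (n a) q (v a)) := by
  unfold tests
  apply PT.flatMap (PT.const _)
  apply PT.map
  · have h1 : PT (fun z : α × ℕ × ℕ => n z.1) := hn.comp (PT.fst PT.id')
    fun_prop
  · have h1 : PT (fun z : (α × ℕ × ℕ) × ℕ => n z.1.1) := hn.comp (PT.fst (PT.fst PT.id'))
    have h2 : PT (fun z : (α × ℕ × ℕ) × ℕ => v z.1.1) := hv.comp (PT.fst (PT.fst PT.id'))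
    fun_prop

theorem PT_locb {S : List Wd × Wd → Bool} (hS : PT S) (p : ℕ) (q : Wd) {n : α → ℕ}
    {C : α → List Wd} {v : α → Wd} (hn : PT n) (hC : PT C) (hv : PT v) :
    PT (fun a => locb S p (n a) q (C a) (v a)) := by
  unfold locb
  apply PT.not
  apply PT.any (PT_tests p q hn hv)
  have h1 : PT (fun z : α × Wd => n z.1) := hn.comp (PT.fst PT.id')
  have h2 : PT (fun z : α × Wd => C z.1) := hC.comp (PT.fst PT.id')
  exact PT_inSp hS p (PT_shifts h1 h2) (PT.snd PT.id')

theorem PT_pick {S : List Wd × Wd → Bool} (hS : PT S) (p : ℕ) (q : Wd) {n M : α → ℕ}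
    {G0 B : α → List Wd} (hn : PT n) (hM : PT M) (hG : PT G0) (hB : PT B) :
    PT (fun a => pick S p (n a) q (G0 a) (M a) (B a)) := by
  obtain ⟨e, he⟩ := hB.bound
  have h0 : PT (fun a => (B a).foldl (fun C v => bif ltb C.length (M a) &&
      locb S p (n a) q (C ++ G0 a) v then v :: C else C) []) := by
    apply PT.foldl_add hB (PT.const [])
    · have a1 : PT (fun z : α × List Wd × Wd => M z.1) := hM.comp (PT.fst PT.id')
      have a2 : PT (fun z : α × List Wd × Wd => n z.1) := hn.comp (PT.fst PT.id')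
      have a3 : PT (fun z : α × List Wd × Wd => G0 z.1) := hG.comp (PT.fst PT.id')
      have a4 : PT (fun z : α × List Wd × Wd => z.2.1) := by fun_prop
      have a5 : PT (fun z : α × List Wd × Wd => z.2.2) := by fun_prop
      exact PT.cond (PT.and (PT.ltb (PT.length a4) a1)
        (PT_locb hS p q a2 (PT.append a4 a3) a5)) (PT.cons a5 a4) a4
    · refine ⟨fun m => 2 * (m + 2) ^ e + 1, ((PB.const 2).mul
        ((PB.id.add (PB.const 2)).pow e)).add (PB.const 1), ?_⟩
      intro a C v hv
      have h1 := sz_mem hv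
      have h2 := he a
      cases ltb C.length (M a) && locb S p (n a) q (C ++ G0 a) v with
      | true =>
        show sz (v :: C) ≤ _
        rw [sz_cons]
        simp only
        omega
      | false =>
        show sz C ≤ _
        omega
  refine h0.of_eq fun a => ?_
  unfold pick
  congr 1
  funext C v
  cases ltb C.length (M a) && locb S p (n a) q (C ++ G0 a) v <;> simp

theorem PT_optW {G0 : α → List Wd} {l : α → List ℕ} (hG : PT G0) (hl : PT l) :
    PT (fun a => optW (G0 a) (l a)) := by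
  unfold optW
  apply PT.flatMap hl
  have h1 : PT (fun z : α × ℕ => G0 z.1) := hG.comp (PT.fst PT.id')
  exact PT.getD (PT.snd PT.id') h1 (PT.const [])

theorem PT_blkW (q : Wd) {G0 C : α → List Wd} {z : α → (List ℕ × List ℕ) × ℕ} (hG : PT G0)
    (hC : PT C) (hz : PT z) : PT (fun a => blkW q (G0 a) (C a) (z a)) := by
  unfold blkW
  have h1 : PT (fun a => (z a).2) := PT.snd hz
  have h2 : PT (fun a => (C a).getD (2 * (z a).2) []) := by fun_prop
  have h3 : PT (fun a => (C a).getD (2 * (z a).2 + 1) []) := by fun_prop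
  have h4 : PT (fun a => optW (G0 a) (z a).1.1) := PT_optW hG (PT.fst (PT.fst hz))
  have h5 : PT (fun a => optW (G0 a) (z a).1.2) := PT_optW hG (PT.snd (PT.fst hz))
  fun_prop

theorem PT_inst (q : Wd) {G0 C : α → List Wd} {bl : α → List (List ℕ × List ℕ)}
    {tg : α → List ℕ} (hG : PT G0) (hC : PT C) (hbl : PT bl) (htg : PT tg) :
    PT (fun a => inst q (G0 a) (C a) (bl a) (tg a)) := by
  unfold inst
  refine PT.pair ?_ (PT_optW hG htg)
  apply PT.flatMap (PT.zipIdx hbl)
  exact PT_blkW q (hG.comp (PT.fst PT.id')) (hC.comp (PT.fst PT.id')) (PT.snd PT.id')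

/-! ### the blocks -/

@[fun_prop]
theorem PT_sum {l : α → List ℕ} (hl : PT l) : PT (fun a => (l a).sum) := by
  have : PT (fun a => ((l a).flatMap fun n => List.range n).length) := by
    apply PT.length
    apply PT.flatMap hl
    fun_prop
  refine this.of_eq fun a => ?_
  rw [List.length_flatMap]
  simp

@[fun_prop]
theorem PT_clauses {H : α → List (List ℕ)} (hH : PT H) : PT (fun a => clauses (H a)) := by
  unfold clauses
  apply PT.flatMap hH
  fun_prop

@[fun_prop]
theorem PT_width {H : α → List (List ℕ)} (hH : PT H) : PT (fun a => width (H a)) := by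
  unfold width
  have h1 : PT (fun a => (H a).map List.length) := by
    apply PT.map hH
    exact PT.length (PT.snd PT.id')
  fun_prop

theorem PT_occ {K : α → ℕ} {Z : α → List ((Bool × List ℕ) × ℕ)} (hK : PT K) (hZ : PT Z) :
    PT (fun a => occ (K a) (Z a)) := by
  unfold occ
  apply PT.flatMap hZ
  apply PT.map
  · exact PT.zipIdx (PT.snd (PT.fst (PT.snd PT.id')))
  · have h1 : PT (fun z : (α × ((Bool × List ℕ) × ℕ)) × ℕ × ℕ => K z.1.1) :=
      hK.comp (PT.fst (PT.fst PT.id'))
    fun_prop

theorem PT_vopt (b : Bool) {K v : α → ℕ} {Z : α → List ((Bool × List ℕ) × ℕ)} (hK : PT K)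
    (hZ : PT Z) (hv : PT v) : PT (fun a => vopt (K a) (Z a) b (v a)) := by
  have h0 : PT (fun a => ((occ (K a) (Z a)).filter fun o =>
      (bif b then o.2.1 else !o.2.1) && (leb o.2.2 (v a) && leb (v a) o.2.2)).map Prod.fst) := by
    apply PT.map
    · apply PT.filter (PT_occ hK hZ)
      have h1 : PT (fun z : α × ℕ × Bool × ℕ => v z.1) := hv.comp (PT.fst PT.id')
      have h2 : PT (fun z : α × ℕ × Bool × ℕ => z.2.2.1) := by fun_prop
      have h3 : PT (fun z : α × ℕ × Bool × ℕ => z.2.2.2) := by fun_prop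
      exact PT.and (PT.cond (PT.const b) h2 (PT.not h2)) (PT.and (PT.leb h3 h1) (PT.leb h1 h3))
    · exact PT.fst (PT.snd PT.id')
  refine h0.of_eq fun a => ?_
  unfold vopt
  congr 1
  congr 1
  funext o
  congr 1
  · cases b <;> cases o.2.1 <;> rfl
  · rw [Bool.eq_iff_iff]
    simp only [leb, Bool.and_eq_true, decide_eq_true_eq, beq_iff_eq]
    omega

theorem PT_cblk {i k : α → ℕ} (hi : PT i) (hk : PT k) : PT (fun a => cblk (i a) (k a)) := by
  unfold cblk
  apply PT.map (PT.range hk)
  have h1 : PT (fun z : α × ℕ => i z.1) := hi.comp (PT.fst PT.id')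
  fun_prop

theorem PT_cblks {K : α → ℕ} {Z : α → List ((Bool × List ℕ) × ℕ)} (hK : PT K) (hZ : PT Z) :
    PT (fun a => cblks (K a) (Z a)) := by
  unfold cblks
  apply PT.flatMap hZ
  have h1 : PT (fun z : α × (Bool × List ℕ) × ℕ => K z.1) := hK.comp (PT.fst PT.id')
  apply PT_cblk
  · fun_prop
  · fun_prop

theorem PT_crng {i k : α → ℕ} (hi : PT i) (hk : PT k) : PT (fun a => crng (i a) (k a)) := by
  unfold crng
  apply PT.map (PT.range (PT.succ hk))
  have h1 : PT (fun z : α × ℕ => i z.1) := hi.comp (PT.fst PT.id')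
  fun_prop

theorem PT_targH {H : α → List (List ℕ)} (hH : PT H) : PT (fun a => targH (H a)) := by
  unfold targH targ
  apply PT.flatMap (PT.zipIdx (PT_clauses hH))
  have h1 : PT (fun z : α × (Bool × List ℕ) × ℕ => width (H z.1)) :=
    PT_width (hH.comp (PT.fst PT.id'))
  apply PT_crng
  · fun_prop
  · fun_prop

theorem PT_blks {N : α → ℕ} {H : α → List (List ℕ)} (hN : PT N) (hH : PT H) :
    PT (fun a => blks (N a) (H a)) := by
  unfold blks
  have hZ : PT (fun a => (clauses (H a)).zipIdx) := PT.zipIdx (PT_clauses hH)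
  have hK : PT (fun a => width (H a)) := PT_width hH
  refine PT.append ?_ (PT_cblks hK hZ)
  apply PT.map (PT.range hN)
  have h1 : PT (fun z : α × ℕ => width (H z.1)) := hK.comp (PT.fst PT.id')
  have h2 : PT (fun z : α × ℕ => (clauses (H z.1)).zipIdx) := hZ.comp (PT.fst PT.id')
  exact PT.pair (PT_vopt true h1 h2 (PT.snd PT.id')) (PT_vopt false h1 h2 (PT.snd PT.id'))

theorem PT_nb {N : α → ℕ} {H : α → List (List ℕ)} (hN : PT N) (hH : PT H) :
    PT (fun a => nb (N a) (H a)) := PT.length (PT_blks hN hH)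

theorem PT_nL {H : α → List (List ℕ)} (hH : PT H) : PT (fun a => nL (H a)) := by
  unfold nL
  fun_prop

theorem PT_nD (p l : ℕ) {N : α → ℕ} {H : α → List (List ℕ)} (hN : PT N) (hH : PT H) :
    PT (fun a => nD p l (N a) (H a)) := by
  unfold nD
  have h1 := PT_nb hN hH
  have h2 := PT_nL hH
  fun_prop

theorem PT_take {β : Type} [En β] {f : α → ℕ} {l : α → List β} (hf : PT f) (hl : PT l) :
    PT (fun a => (l a).take (f a)) := by
  have : PT (fun a => (((l a).reverse).drop ((l a).length - f a)).reverse) := by fun_prop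
  refine this.of_eq fun a => ?_
  rw [List.drop_reverse, List.reverse_reverse]
  by_cases h : f a ≤ (l a).length
  · congr 1
    omega
  · rw [List.take_of_length_le (by omega), List.take_of_length_le (by omega)]

theorem PT_solve {S : List Wd × Wd → Bool} (hS : PT S) (p : ℕ) (Y : List Wd) (w : Wd)
    {N : α → ℕ} {H : α → List (List ℕ)} (hN : PT N) (hH : PT H) :
    PT (fun a => solve S p Y w (N a) (H a)) := by
  have hB : PT (fun a => fnd S p Y w (N a) (H a)) := by
    unfold fnd
    exact PT_iter_grow hS p Y w (PT_nD p _ hN hH)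
  have hG : PT (fun a => (fnd S p Y w (N a) (H a)).take (nL (H a))) := PT_take (PT_nL hH) hB
  have hnb := PT_nb hN hH
  have hM : PT (fun a => 2 * nb (N a) (H a)) := by fun_prop
  have hC : ∀ q : Wd, PT (fun a => crq S p Y w (N a) (H a) q) := by
    intro q
    unfold crq
    exact PT_pick hS p q hnb hM hG hB
  have hq : ∀ q : Wd, PT (fun a => (crq S p Y w (N a) (H a) q).length == 2 * nb (N a) (H a) &&
      S (inst q ((fnd S p Y w (N a) (H a)).take (nL (H a))) (crq S p Y w (N a) (H a) q)
        (blks (N a) (H a)) (targH (H a)))) := by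
    intro q
    apply PT.and
    · have h1 := PT.length (hC q)
      have h2 : PT (fun a => leb (crq S p Y w (N a) (H a) q).length (2 * nb (N a) (H a)) &&
        leb (2 * nb (N a) (H a)) (crq S p Y w (N a) (H a) q).length) :=
        PT.and (PT.leb h1 hM) (PT.leb hM h1)
      refine h2.of_eq fun a => ?_
      rw [Bool.eq_iff_iff]
      simp only [leb, Bool.and_eq_true, decide_eq_true_eq, beq_iff_eq]
      omega
    · exact hS.comp (PT_inst q hG (hC q) (PT_blks hN hH) (PT_targH hH))
  have hany : ∀ Y' : List Wd, PT (fun a => Y'.any fun q =>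
      (crq S p Y w (N a) (H a) q).length == 2 * nb (N a) (H a) &&
      S (inst q ((fnd S p Y w (N a) (H a)).take (nL (H a))) (crq S p Y w (N a) (H a) q)
        (blks (N a) (H a)) (targH (H a)))) := by
    intro Y'
    induction Y' with
    | nil => exact (PT.const false).of_eq fun a => rfl
    | cons q Y' ih => exact (PT.or (hq q) ih).of_eq fun a => rfl
  exact hany Y

end Pool.Agent.SspConj
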