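import Pool.Agent.Lib.MP_a9d022_lc.Peel
import Pool.Agent.Lib.MP_a9d022_lc.Count

/-! # Independent conjugates of an element -/

namespace Pool.Agent.SspConj

variable {G : Type} [Group G]

/-- the subgroup generated by the conjugates of `a` by elements of `H` -/
def orb (H : Subgroup G) (a : G) : Subgroup G := Subgroup.closure {x | ∃ h ∈ H, x = cj h a}

theorem mem_orb {H : Subgroup G} {a h : G} (hh : h ∈ H) : cj h a ∈ orb H a :=
  Subgroup.subset_closure ⟨h, hh, rfl⟩

theorem self_mem_orb (H : Subgroup G) (a : G) : a ∈ orb H a := by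
  have := mem_orb (a := a) (one_mem H)
  rwa [one_cj] at this

theorem cj_mem_orb {H : Subgroup G} {a h x : G} (hh : h ∈ H) (hx : x ∈ orb H a) :
    cj h x ∈ orb H a := by
  unfold orb at hx
  induction hx using Subgroup.closure_induction with
  | mem x hx =>
    obtain ⟨k, hk, rfl⟩ := hx
    rw [cj_cj]
    exact mem_orb (mul_mem hh hk)
  | one => rw [cj_one']; exact one_mem _
  | mul x y _ _ hx hy => rw [cj_mul]; exact mul_mem hx hy
  | inv x _ hx => rw [cj_inv]; exact inv_mem hx

theorem orb_comm {H : Subgroup G} {a : G}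
    (hc : ∀ h ∈ H, ∀ k ∈ H, cj h a * cj k a = cj k a * cj h a) :
    ∀ x ∈ orb H a, ∀ y ∈ orb H a, x * y = y * x := by
  have h1 : ∀ x ∈ {x | ∃ h ∈ H, x = cj h a}, ∀ y ∈ {x | ∃ h ∈ H, x = cj h a},
      x * y = y * x := by
    rintro x ⟨h, hh, rfl⟩ y ⟨k, hk, rfl⟩
    exact hc h hh k hk
  intro x hx y hy
  have h2 := Subgroup.isMulCommutative_closure h1
  have := h2.is_comm.comm (⟨x, hx⟩ : Subgroup.closure {x | ∃ h ∈ H, x = cj h a}) ⟨y, hy⟩
  exact congrArg Subtype.val this

theorem orb_pow {H : Subgroup G} {a : G} {p : ℕ}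
    (hc : ∀ h ∈ H, ∀ k ∈ H, cj h a * cj k a = cj k a * cj h a) (ha : a ^ p = 1) :
    ∀ x ∈ orb H a, x ^ p = 1 := by
  have hcomm := orb_comm hc
  intro x hx
  have hx' : x ∈ Subgroup.closure {x | ∃ h ∈ H, x = cj h a} := hx
  induction hx' using Subgroup.closure_induction with
  | mem x hx1 =>
    obtain ⟨h, hh, rfl⟩ := hx1
    rw [← cj_pow, ha, cj_one']
  | one => exact one_pow p
  | mul x y hx1 hy1 hx2 hy2 =>
    have : Commute x y := hcomm x hx1 y hy1
    rw [this.mul_pow, hx2 hx1, hy2 hy1, one_mul]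
  | inv x hx1 hx2 => rw [inv_pow, hx2 hx1, inv_one]

/-- a list of independent conjugates of `a`, every one obtained from an earlier one (later in the
list) by conjugation with a generator or its inverse -/
inductive Tree (Ys : List G) (a : G) : List G → Prop
  | base : a ≠ 1 → Tree Ys a [a]
  | step {B : List G} {v b y : G} : Tree Ys a B → b ∈ B → y ∈ Ys → (v = cj y b ∨ v = cj y⁻¹ b) →
      v ∉ cl B → Tree Ys a (v :: B)

variable {Ys : List G} {a : G} {H : Subgroup G} {p : ℕ}

theorem Tree.ind {B : List G} (h : Tree Ys a B) : Ind B := by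
  induction h with
  | base h =>
    refine ⟨?_, trivial⟩
    have h1 : cl ([] : List G) = ⊥ := by
      unfold cl
      simp
    rw [h1, Subgroup.mem_bot]
    exact h
  | step _ _ _ _ hv ih => exact ⟨hv, ih⟩

theorem Tree.mem {B : List G} (h : Tree Ys a B) (hY : ∀ y ∈ Ys, y ∈ H) :
    ∀ x ∈ B, x ∈ orb H a := by
  induction h with
  | base h =>
    intro x hx
    rw [List.mem_singleton] at hx
    rw [hx]
    exact self_mem_orb H a
  | step _ hb hy hv _ ih =>
    intro x hx
    rcases List.mem_cons.1 hx with rfl | hx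
    · rcases hv with rfl | rfl
      · exact cj_mem_orb (hY _ hy) (ih _ hb)
      · exact cj_mem_orb (inv_mem (hY _ hy)) (ih _ hb)
    · exact ih x hx

theorem Tree.self {B : List G} (h : Tree Ys a B) : a ∈ B := by
  induction h with
  | base h => exact List.mem_singleton.2 rfl
  | step _ _ _ _ _ ih => exact List.mem_cons_of_mem _ ih

/-- the search never gets stuck -/
theorem Tree.next (hp : 2 ≤ p) (hc : ∀ x ∈ orb H a, ∀ y ∈ orb H a, x * y = y * x)
    (he : ∀ x ∈ orb H a, x ^ p = 1) (hY : Subgroup.closure {y | y ∈ Ys} = H)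
    (hinf : {x | ∃ h ∈ H, x = cj h a}.Infinite) {B : List G} (h : Tree Ys a B) :
    ∃ b ∈ B, ∃ y ∈ Ys, cj y b ∉ cl B ∨ cj y⁻¹ b ∉ cl B := by
  by_contra hcon
  push Not at hcon
  have hYH : ∀ y ∈ Ys, y ∈ H := fun y hy => by
    rw [← hY]
    exact Subgroup.subset_closure hy
  have hcl : ∀ y ∈ Ys, ∀ x ∈ cl B, cj y x ∈ cl B ∧ cj y⁻¹ x ∈ cl B := by
    intro y hy x hx
    unfold cl at hx
    induction hx using Subgroup.closure_induction with
    | mem x hx => exact hcon x hx y hy
    | one => rw [cj_one', cj_one']; exact ⟨one_mem _, one_mem _⟩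
    | mul x z _ _ hx hz => rw [cj_mul, cj_mul]; exact ⟨mul_mem hx.1 hz.1, mul_mem hx.2 hz.2⟩
    | inv x _ hx => rw [cj_inv, cj_inv]; exact ⟨inv_mem hx.1, inv_mem hx.2⟩
  have hall : ∀ h ∈ H, (∀ x ∈ cl B, cj h x ∈ cl B) ∧ ∀ x ∈ cl B, cj h⁻¹ x ∈ cl B := by
    intro h hh
    rw [← hY] at hh
    induction hh using Subgroup.closure_induction with
    | mem y hy => exact ⟨fun x hx => (hcl y hy x hx).1, fun x hx => (hcl y hy x hx).2⟩
    | one =>
      refine ⟨fun x hx => ?_, fun x hx => ?_⟩
      · rwa [one_cj]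
      · rwa [inv_one, one_cj]
    | mul g k _ _ hg hk =>
      refine ⟨fun x hx => ?_, fun x hx => ?_⟩
      · rw [← cj_cj]; exact hg.1 _ (hk.1 x hx)
      · rw [mul_inv_rev, ← cj_cj]; exact hk.2 _ (hg.2 x hx)
    | inv g _ hg =>
      refine ⟨hg.2, fun x hx => ?_⟩
      rw [inv_inv]; exact hg.1 x hx
  apply hinf
  refine ((cl_finite hp hc he (h.mem hYH)).1).subset ?_
  rintro x ⟨g, hg, rfl⟩
  exact (hall g hg).1 a (subset_cl B h.self)

theorem mem_of_zpow (hp : p.Prime) {K : Subgroup G} {x : G} (hx : x ^ p = 1) {c : ℤ}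
    (hc : ¬ (p : ℤ) ∣ c) (h : x ^ c ∈ K) : x ∈ K := by
  have hcop : IsCoprime c (p : ℤ) := by
    have hpp : Prime (p : ℤ) := Nat.prime_iff_prime_int.1 hp
    exact ((Prime.coprime_iff_not_dvd hpp).2 hc).symm
  obtain ⟨s, t, hst⟩ := hcop
  have : x = (x ^ c) ^ s * (x ^ (p : ℤ)) ^ t := by
    rw [← zpow_mul, ← zpow_mul, ← zpow_add]
    conv_lhs => rw [← zpow_one x]
    congr 1
    linarith
  rw [this, zpow_natCast, hx, one_zpow, mul_one]
  exact zpow_mem h _

open Classical in
/-- the generators of a subgroup which contains all tree elements if no element is locally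
independent -/
noncomputable def bigE (A : Subgroup G) (n : ℕ) (Wq : G → List G) (q : G) : List G :=
  Wq q ++ (Wq q).map (cj q) ++ (Wq q).map (cj q⁻¹) ++
    ((List.range (2 * n + 1)).map fun i : ℕ => q ^ ((i : ℤ) - n)).filter fun x => x ∈ A

theorem bigE_length (A : Subgroup G) (n : ℕ) (Wq : G → List G) (q : G) :
    (bigE A n Wq q).length ≤ 3 * (Wq q).length + (2 * n + 1) := by
  classical
  unfold bigE
  rw [List.length_append, List.length_append, List.length_append, List.length_map,
    List.length_map]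
  have := List.length_filter_le (fun x => decide (x ∈ A))
    ((List.range (2 * n + 1)).map fun i : ℕ => q ^ ((i : ℤ) - n))
  rw [List.length_map, List.length_range] at this
  omega

/-- if no element is locally independent then the tree is small -/
theorem Tree.small (hp : p.Prime) (hc : ∀ x ∈ orb H a, ∀ y ∈ orb H a, x * y = y * x)
    (he : ∀ x ∈ orb H a, x ^ p = 1) (hYH : ∀ y ∈ Ys, y ∈ H) {n w : ℕ} {Wq : G → List G}
    (hWA : ∀ q ∈ Ys, ∀ x ∈ Wq q, x ∈ orb H a) (hWl : ∀ q ∈ Ys, (Wq q).length ≤ w)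
    {B : List G} (h : Tree Ys a B)
    (hfail : ∀ q ∈ Ys, ∀ v ∈ B, ¬ Loc p q n v (cl (Wq q))) :
    B.length ≤ (p - 1) * (1 + Ys.length * (3 * w + (2 * n + 1))) := by
  obtain ⟨E, hE⟩ : ∃ E, E = a :: Ys.flatMap (bigE (orb H a) n Wq) := ⟨_, rfl⟩
  have hEA : ∀ x ∈ E, x ∈ orb H a := by
    intro x hx
    rw [hE] at hx
    rcases List.mem_cons.1 hx with rfl | hx
    · exact self_mem_orb H _
    · rw [List.mem_flatMap] at hx
      obtain ⟨q, hq, hx⟩ := hx
      unfold bigE at hx
      rcases List.mem_append.1 hx with hx | hx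
      · rcases List.mem_append.1 hx with hx | hx
        · rcases List.mem_append.1 hx with hx | hx
          · exact hWA q hq x hx
          · obtain ⟨z, hz, rfl⟩ := List.mem_map.1 hx
            exact cj_mem_orb (hYH q hq) (hWA q hq z hz)
        · obtain ⟨z, hz, rfl⟩ := List.mem_map.1 hx
          exact cj_mem_orb (inv_mem (hYH q hq)) (hWA q hq z hz)
      · rw [List.mem_filter] at hx
        simpa using hx.2
  have hEl : E.length ≤ 1 + Ys.length * (3 * w + (2 * n + 1)) := by
    rw [hE, List.length_cons, List.length_flatMap]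
    have h1 : ((Ys.map fun q => (bigE (orb H a) n Wq q).length)).sum ≤
        Ys.length * (3 * w + (2 * n + 1)) := by
      have h2 := List.sum_le_card_nsmul (Ys.map fun q => (bigE (orb H a) n Wq q).length)
        (3 * w + (2 * n + 1)) (by
          intro x hx
          obtain ⟨q, hq, rfl⟩ := List.mem_map.1 hx
          have h3 := bigE_length (orb H a) n Wq q
          have h4 := hWl q hq
          omega)
      rwa [List.length_map, smul_eq_mul] at h2
    omega
  have hmemE : ∀ q ∈ Ys, ∀ x ∈ bigE (orb H a) n Wq q, x ∈ cl E := by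
    intro q hq x hx
    apply subset_cl
    rw [hE]
    exact List.mem_cons_of_mem _ (List.mem_flatMap.2 ⟨q, hq, hx⟩)
  have hW1 : ∀ q ∈ Ys, cl (Wq q) ≤ cl E := fun q hq => cl_mono fun x hx =>
    hmemE q hq x (by
      unfold bigE
      exact List.mem_append_left _ (List.mem_append_left _ (List.mem_append_left _ hx)))
  have hcjcl : ∀ (g : G) (C : List G) (K : Subgroup G), (∀ x ∈ C, cj g x ∈ K) →
      ∀ x ∈ cl C, cj g x ∈ K := by
    intro g C K hC x hx
    unfold cl at hx
    induction hx using Subgroup.closure_induction with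
    | mem x hx => exact hC x hx
    | one => rw [cj_one']; exact one_mem _
    | mul x z _ _ hx hz => rw [cj_mul]; exact mul_mem hx hz
    | inv x _ hx => rw [cj_inv]; exact inv_mem hx
  have hW2 : ∀ q ∈ Ys, ∀ x ∈ cl (Wq q), cj q x ∈ cl E := fun q hq => hcjcl q _ _ fun x hx =>
    hmemE q hq _ (by
      unfold bigE
      exact List.mem_append_left _ (List.mem_append_left _ (List.mem_append_right _
        (List.mem_map_of_mem hx))))
  have hW3 : ∀ q ∈ Ys, ∀ x ∈ cl (Wq q), cj q⁻¹ x ∈ cl E := fun q hq =>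
    hcjcl q⁻¹ _ _ fun x hx => hmemE q hq _ (by
      unfold bigE
      exact List.mem_append_left _ (List.mem_append_right _ (List.mem_map_of_mem hx)))
  have hqS : ∀ q ∈ Ys, ∀ S : ℤ, |S| ≤ n → q ^ S ∈ orb H a → q ^ S ∈ cl E := by
    intro q hq S hS hA
    refine hmemE q hq _ ?_
    unfold bigE
    refine List.mem_append_right _ (List.mem_filter.2 ⟨List.mem_map.2 ⟨(S + n).toNat, ?_, ?_⟩, by
      simpa using hA⟩)
    · rw [List.mem_range]
      have := abs_le.1 hS
      omega
    · have := abs_le.1 hS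
      congr 1
      omega
  -- the failing test for `v`, with `v` and `q v q⁻¹` in `orb H a`
  have key : ∀ q ∈ Ys, ∀ v ∈ B, (v ∈ cl E → cj q v ∈ cl E) ∧ (cj q v ∈ cl E → v ∈ cl E) := by
    intro q hq v hv
    have hvA : v ∈ orb H a := h.mem hYH v hv
    have hqvA : cj q v ∈ orb H a := cj_mem_orb (hYH q hq) hvA
    have hf := hfail q hq v hv
    unfold Loc at hf
    push Not at hf
    obtain ⟨c1, c2, S, hS, hm, hnd⟩ := hf
    have hmA : v ^ c1 * cj q v ^ c2 * q ^ S ∈ orb H a := (cl_le (hWA q hq)) hm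
    have hqSA : q ^ S ∈ orb H a := by
      have := mul_mem (inv_mem (mul_mem (zpow_mem hvA c1) (zpow_mem hqvA c2))) hmA
      rwa [← mul_assoc, inv_mul_cancel, one_mul] at this
    have hqSE := hqS q hq S hS hqSA
    have hmE := hW1 q hq hm
    constructor
    · intro hvE
      by_cases h2 : (p : ℤ) ∣ c2
      · -- then `v` is in the span of `Wq q` and `q ^ S`
        have h1 : ¬ (p : ℤ) ∣ c1 := fun h1 => (hnd h1) h2
        obtain ⟨d, rfl⟩ := h2
        have e1 : cj q v ^ ((p : ℤ) * d) = 1 := by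
          rw [zpow_mul, zpow_natCast, he _ hqvA, one_zpow]
        rw [e1, mul_one] at hm
        have e2 : cj q (v ^ c1) ∈ cl E := by
          have e3 : v ^ c1 = (v ^ c1 * q ^ S) * (q ^ S)⁻¹ := by group
          rw [e3, cj_mul]
          refine mul_mem (hW2 q hq _ hm) ?_
          rw [cj_inv]
          have e4 : cj q (q ^ S) = q ^ S := by unfold cj; group
          rw [e4]
          exact inv_mem hqSE
        rw [cj_zpow] at e2
        exact mem_of_zpow hp (he _ hqvA) h1 e2
      · have e2 : cj q v ^ c2 ∈ cl E := by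
          have e3 : cj q v ^ c2 = (v ^ c1)⁻¹ * (v ^ c1 * cj q v ^ c2 * q ^ S) * (q ^ S)⁻¹ := by
            group
          rw [e3]
          exact mul_mem (mul_mem (inv_mem (zpow_mem hvE c1)) hmE) (inv_mem hqSE)
        exact mem_of_zpow hp (he _ hqvA) h2 e2
    · intro hqvE
      by_cases h1 : (p : ℤ) ∣ c1
      · have h2 : ¬ (p : ℤ) ∣ c2 := hnd h1
        obtain ⟨d, rfl⟩ := h1
        have e1 : v ^ ((p : ℤ) * d) = 1 := by
          rw [zpow_mul, zpow_natCast, he _ hvA, one_zpow]
        rw [e1, one_mul] at hm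
        have e2 : cj q⁻¹ (cj q v ^ c2) ∈ cl E := by
          have e3 : cj q v ^ c2 = (cj q v ^ c2 * q ^ S) * (q ^ S)⁻¹ := by group
          rw [e3, cj_mul]
          refine mul_mem (hW3 q hq _ hm) ?_
          rw [cj_inv]
          have e4 : cj q⁻¹ (q ^ S) = q ^ S := by unfold cj; group
          rw [e4]
          exact inv_mem hqSE
        rw [← cj_zpow, cj_cj, inv_mul_cancel, one_cj] at e2
        exact mem_of_zpow hp (he _ hvA) h2 e2
      · have e2 : v ^ c1 ∈ cl E := by
          have e3 : v ^ c1 = (v ^ c1 * cj q v ^ c2 * q ^ S) * (q ^ S)⁻¹ * (cj q v ^ c2)⁻¹ := by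
            group
          rw [e3]
          exact mul_mem (mul_mem hmE (inv_mem hqSE)) (inv_mem (zpow_mem hqvE c2))
        exact mem_of_zpow hp (he _ hvA) h1 e2
  have hBE : ∀ x ∈ B, x ∈ cl E := by
    have hgen : ∀ B' : List G, Tree Ys a B' → (∀ x ∈ B', x ∈ B) → ∀ x ∈ B', x ∈ cl E := by
      intro B' hT
      induction hT with
      | base h =>
        intro _ x hx
        rw [List.mem_singleton] at hx
        rw [hx]
        apply subset_cl
        rw [hE]
        exact List.mem_cons_self
      | @step B1 v b y _ hb hy hv _ ih =>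
        intro hsub x hx
        have ih' := ih fun z hz => hsub z (List.mem_cons_of_mem _ hz)
        rcases List.mem_cons.1 hx with rfl | hx
        · rcases hv with hv | hv
          · rw [hv]
            exact (key y hy b (hsub b (List.mem_cons_of_mem _ hb))).1 (ih' b hb)
          · have hvB : x ∈ B := hsub x List.mem_cons_self
            apply (key y hy x hvB).2
            have : cj y x = b := by
              rw [hv, cj_cj, mul_inv_cancel, one_cj]
            rw [this]
            exact ih' b hb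
        · exact ih' x hx
    exact hgen B h fun x hx => hx
  have hlen := length_le hp.two_le hc he (h.mem hYH) hEA h.ind hBE
  exact hlen.trans (Nat.mul_le_mul_left _ hEl)

end Pool.Agent.SspConj
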