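import Pool.Agent.Lib.MP_a9d022_lc.Tree

/-! # Words -/

namespace Pool.Agent.SspConj

variable {G : Type} [Group G] {r : ℕ}

/-- words: letters are pairs (index of a generator, sign), sign `true` means inverse -/
abbrev Wd : Type := List (ℕ × Bool)

/-- the value of a letter; letters with an index `≥ r` have the value `1` -/
def letter (X : Fin r → G) (c : ℕ × Bool) : G :=
  if h : c.1 < r then (if c.2 then (X ⟨c.1, h⟩)⁻¹ else X ⟨c.1, h⟩) else 1

/-- the value of a word -/
def ev (X : Fin r → G) (w : Wd) : G := (w.map (letter X)).prod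

/-- inverse word -/
def winv (w : Wd) : Wd := (w.map fun c => (c.1, !c.2)).reverse

/-- powers of a word -/
def wpow (k : ℕ) (w : Wd) : Wd := (List.range k).flatMap fun _ => w

/-- conjugates -/
def wcj (y w : Wd) : Wd := y ++ w ++ winv y

/-- the power `q ^ (i - n)` -/
def wz (n i : ℕ) (q : Wd) : Wd := wpow (i - n) q ++ wpow (n - i) (winv q)

variable (X : Fin r → G)

theorem ev_nil : ev X [] = 1 := rfl

theorem ev_append (v w : Wd) : ev X (v ++ w) = ev X v * ev X w := by
  unfold ev
  rw [List.map_append, List.prod_append]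

theorem letter_inv (c : ℕ × Bool) : letter X (c.1, !c.2) = (letter X c)⁻¹ := by
  unfold letter
  by_cases h : c.1 < r
  · cases h2 : c.2 <;> simp [h]
  · simp [h]

theorem ev_winv (w : Wd) : ev X (winv w) = (ev X w)⁻¹ := by
  unfold ev winv
  rw [List.prod_inv_reverse, List.map_reverse, List.map_map, List.map_map]
  congr 2
  apply List.map_congr_left
  intro c _
  exact letter_inv X c

theorem ev_wpow (k : ℕ) (w : Wd) : ev X (wpow k w) = ev X w ^ k := by
  unfold wpow
  induction k with
  | zero => simp [ev_nil]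
  | succ k ih => rw [List.range_succ, List.flatMap_append, ev_append, ih, pow_succ]; simp

theorem ev_wcj (y w : Wd) : ev X (wcj y w) = cj (ev X y) (ev X w) := by
  unfold wcj cj
  rw [ev_append, ev_append, ev_winv]

theorem ev_wz (n i : ℕ) (q : Wd) : ev X (wz n i q) = ev X q ^ ((i : ℤ) - n) := by
  unfold wz
  rw [ev_append, ev_wpow, ev_wpow, ev_winv, inv_pow, ← zpow_natCast, ← zpow_natCast, ← zpow_neg,
    ← zpow_add]
  congr 1
  omega

theorem ev_flatMap (l : List ℕ) (f : ℕ → Wd) :
    ev X (l.flatMap f) = (l.map fun i => ev X (f i)).prod := by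
  induction l with
  | nil => rfl
  | cons i l ih => rw [List.flatMap_cons, ev_append, ih, List.map_cons, List.prod_cons]

theorem exists_word (hX : Subgroup.closure (Set.range X) = ⊤) (g : G) : ∃ w : Wd, ev X w = g := by
  have hg : g ∈ Subgroup.closure (Set.range X) := by rw [hX]; trivial
  induction hg using Subgroup.closure_induction with
  | mem x hx =>
    obtain ⟨i, rfl⟩ := hx
    exact ⟨[(i.1, false)], by simp [ev, letter]⟩
  | one => exact ⟨[], rfl⟩
  | mul x y _ _ hx hy =>
    obtain ⟨v, rfl⟩ := hx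
    obtain ⟨w, rfl⟩ := hy
    exact ⟨v ++ w, ev_append X v w⟩
  | inv x _ hx =>
    obtain ⟨v, rfl⟩ := hx
    exact ⟨winv v, ev_winv X v⟩

/-- the subset sum problem for words -/
def Ssp (ws : List Wd) (w : Wd) : Prop := ∃ u : List Wd, u.Sublist ws ∧ (u.map (ev X)).prod = ev X w

/-- an oracle for the subset sum problem -/
def Orc (S : List Wd × Wd → Bool) : Prop := ∀ ws w, S (ws, w) = true ↔ Ssp X ws w

/-- membership in a span by the oracle -/
def inSp (S : List Wd × Wd → Bool) (p : ℕ) (B : List Wd) (w : Wd) : Bool := S (rep (p - 1) B, w)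

variable {X} {S : List Wd × Wd → Bool} {p : ℕ} {A : Subgroup G}

theorem ssp_map {ws : List Wd} {w : Wd} : Ssp X ws w ↔
    ∃ u : List G, u.Sublist (ws.map (ev X)) ∧ u.prod = ev X w := by
  constructor
  · rintro ⟨u, hu, h⟩
    exact ⟨u.map (ev X), hu.map _, h⟩
  · rintro ⟨u, hu, h⟩
    obtain ⟨u', hu', rfl⟩ := List.sublist_map_iff.1 hu
    exact ⟨u', hu', h⟩

theorem inSp_iff (hS : Orc X S) (hp : 2 ≤ p) (hc : ∀ x ∈ A, ∀ y ∈ A, x * y = y * x)
    (he : ∀ x ∈ A, x ^ p = 1) {B : List Wd} (hB : ∀ x ∈ B, ev X x ∈ A) (w : Wd) :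
    inSp S p B w = true ↔ ev X w ∈ cl (B.map (ev X)) := by
  unfold inSp
  rw [hS, ssp_map, rep_map, mem_cl_iff hp hc he]
  intro x hx
  obtain ⟨b, hb, rfl⟩ := List.mem_map.1 hx
  exact hB b hb

end Pool.Agent.SspConj
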